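import Pool.Agent.Helper77.WDG.Tri

/-! The sum of the absolute values of the coefficients of a real polynomial: sums, products, substitutions, values,
Lipschitz bounds; solutions of triangular systems, compositions and inverses of triangular maps. -/

set_option autoImplicit false

namespace Pool.Agent.Helper77.WDG

open MvPolynomial Finset

variable {σ τ : Type*}

/-- the sum of the absolute values of the coefficients -/
noncomputable def nrm (P : MvPolynomial σ ℝ) : ℝ := ∑ a ∈ P.support, |P.coeff a|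

variable {P Q : MvPolynomial σ ℝ}

theorem nrm_nonneg (P : MvPolynomial σ ℝ) : 0 ≤ nrm P := Finset.sum_nonneg fun _ _ => abs_nonneg _

theorem nrm_eq_sum {s : Finset (σ →₀ ℕ)} (h : P.support ⊆ s) : nrm P = ∑ a ∈ s, |P.coeff a| := by
  unfold nrm
  refine Finset.sum_subset h fun a _ ha => ?_
  rw [MvPolynomial.notMem_support_iff.1 ha, abs_zero]

theorem coeff_le_nrm (P : MvPolynomial σ ℝ) (a : σ →₀ ℕ) : |P.coeff a| ≤ nrm P := by
  by_cases h : a ∈ P.support
  · exact Finset.single_le_sum (f := fun a => |P.coeff a|) (fun _ _ => abs_nonneg _) h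
  · rw [MvPolynomial.notMem_support_iff.1 h, abs_zero]
    exact nrm_nonneg P

theorem nrm_zero : nrm (0 : MvPolynomial σ ℝ) = 0 := by simp [nrm]

theorem nrm_add_le (P Q : MvPolynomial σ ℝ) : nrm (P + Q) ≤ nrm P + nrm Q := by
  classical
  rw [nrm_eq_sum (P := P + Q) (s := P.support ∪ Q.support) MvPolynomial.support_add,
    nrm_eq_sum (P := P) (s := P.support ∪ Q.support) Finset.subset_union_left,
    nrm_eq_sum (P := Q) (s := P.support ∪ Q.support) Finset.subset_union_right, ← Finset.sum_add_distrib]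
  refine Finset.sum_le_sum fun a _ => ?_
  rw [MvPolynomial.coeff_add]
  exact abs_add_le _ _

theorem nrm_neg (P : MvPolynomial σ ℝ) : nrm (-P) = nrm P := by
  unfold nrm
  rw [MvPolynomial.support_neg]
  refine Finset.sum_congr rfl fun a _ => ?_
  rw [MvPolynomial.coeff_neg, abs_neg]

theorem nrm_sub_le (P Q : MvPolynomial σ ℝ) : nrm (P - Q) ≤ nrm P + nrm Q := by
  rw [sub_eq_add_neg]
  exact (nrm_add_le _ _).trans (by rw [nrm_neg])

theorem nrm_monomial (a : σ →₀ ℕ) (c : ℝ) : nrm (monomial a c) = |c| := by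
  classical
  rw [nrm_eq_sum (s := {a}) MvPolynomial.support_monomial_subset, Finset.sum_singleton, MvPolynomial.coeff_monomial,
    if_pos rfl]

theorem nrm_C (c : ℝ) : nrm (C c : MvPolynomial σ ℝ) = |c| := nrm_monomial 0 c

theorem nrm_one : nrm (1 : MvPolynomial σ ℝ) = 1 := by
  rw [← MvPolynomial.C_1, nrm_C, abs_one]

theorem nrm_X (i : σ) : nrm (X i : MvPolynomial σ ℝ) = 1 := by
  have h : (X i : MvPolynomial σ ℝ) = monomial (Finsupp.single i 1) 1 := rfl
  rw [h, nrm_monomial, abs_one]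

theorem nrm_sum_le {ι : Type*} (s : Finset ι) (f : ι → MvPolynomial σ ℝ) : nrm (∑ i ∈ s, f i) ≤ ∑ i ∈ s, nrm (f i) := by
  classical
  induction s using Finset.induction_on with
  | empty =>
    rw [Finset.sum_empty, Finset.sum_empty, nrm_zero]
  | insert i s hi ih =>
    rw [Finset.sum_insert hi, Finset.sum_insert hi]
    exact (nrm_add_le _ _).trans (by linarith)

theorem nrm_mul_le (P Q : MvPolynomial σ ℝ) : nrm (P * Q) ≤ nrm P * nrm Q := by
  classical
  have h1 : P * Q = ∑ a ∈ P.support, ∑ b ∈ Q.support, monomial (a + b) (P.coeff a * Q.coeff b) := by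
    conv_lhs => rw [P.as_sum, Q.as_sum]
    rw [Finset.sum_mul_sum]
    refine Finset.sum_congr rfl fun a _ => Finset.sum_congr rfl fun b _ => ?_
    rw [MvPolynomial.monomial_mul]
  rw [h1]
  refine (nrm_sum_le _ _).trans ?_
  unfold nrm
  rw [Finset.sum_mul_sum]
  refine Finset.sum_le_sum fun a _ => ?_
  refine (nrm_sum_le _ _).trans ?_
  refine Finset.sum_le_sum fun b _ => ?_
  rw [nrm_monomial, abs_mul]

theorem nrm_prod_le {ι : Type*} (s : Finset ι) (f : ι → MvPolynomial σ ℝ) : nrm (∏ i ∈ s, f i) ≤ ∏ i ∈ s, nrm (f i) := by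
  classical
  induction s using Finset.induction_on with
  | empty =>
    rw [Finset.prod_empty, Finset.prod_empty, nrm_one]
  | insert i s hi ih =>
    rw [Finset.prod_insert hi, Finset.prod_insert hi]
    exact (nrm_mul_le _ _).trans (mul_le_mul_of_nonneg_left ih (nrm_nonneg _))

theorem nrm_pow_le (P : MvPolynomial σ ℝ) (n : ℕ) : nrm (P ^ n) ≤ nrm P ^ n := by
  have h1 := nrm_prod_le (Finset.range n) (fun _ => P)
  simpa using h1

theorem sum_le_totalDegree {a : σ →₀ ℕ} (ha : a ∈ P.support) : (a.sum fun _ n => n) ≤ P.totalDegree :=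
  MvPolynomial.le_totalDegree ha

theorem bind_eq_sum (H : σ → MvPolynomial τ ℝ) (P : MvPolynomial σ ℝ) :
    bind₁ H P = ∑ a ∈ P.support, MvPolynomial.C (P.coeff a) * ∏ i ∈ a.support, H i ^ a i := by
  conv_lhs => rw [P.as_sum]
  rw [map_sum]
  exact Finset.sum_congr rfl fun a _ => by rw [bind₁_monomial]

theorem prod_pow_le {T : ℝ} (hT : 1 ≤ T) {D : ℕ} {a : σ →₀ ℕ} (ha : (a.sum fun _ n => n) ≤ D) {x : σ → ℝ}
    (h0 : ∀ i ∈ a.support, 0 ≤ x i) (hx : ∀ i ∈ a.support, x i ≤ T) : ∏ i ∈ a.support, x i ^ a i ≤ T ^ D := by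
  calc ∏ i ∈ a.support, x i ^ a i ≤ ∏ i ∈ a.support, T ^ a i :=
        Finset.prod_le_prod (fun i hi => pow_nonneg (h0 i hi) _) fun i hi => pow_le_pow_left₀ (h0 i hi) (hx i hi) _
    _ = T ^ (∑ i ∈ a.support, a i) := Finset.prod_pow_eq_pow_sum _ _ _
    _ ≤ T ^ D := pow_le_pow_right₀ hT ha

/-- SUBSTITUTION -/
theorem nrm_bind_le {T : ℝ} (hT : 1 ≤ T) {D : ℕ} (hD : P.totalDegree ≤ D) (H : σ → MvPolynomial τ ℝ)
    (hH : ∀ i ∈ P.vars, nrm (H i) ≤ T) : nrm (bind₁ H P) ≤ nrm P * T ^ D := by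
  rw [bind_eq_sum]
  refine (nrm_sum_le _ _).trans ?_
  unfold nrm
  rw [Finset.sum_mul]
  refine Finset.sum_le_sum fun a ha => ?_
  refine (nrm_mul_le _ _).trans ?_
  rw [nrm_C]
  refine mul_le_mul_of_nonneg_left ?_ (abs_nonneg _)
  refine (nrm_prod_le _ _).trans ?_
  calc ∏ i ∈ a.support, nrm (H i ^ a i) ≤ ∏ i ∈ a.support, nrm (H i) ^ a i :=
        Finset.prod_le_prod (fun i _ => nrm_nonneg _) fun i _ => nrm_pow_le _ _
    _ ≤ T ^ D := prod_pow_le hT ((sum_le_totalDegree ha).trans hD) (fun i _ => nrm_nonneg _) fun i hi =>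
        hH i (mem_vars_of_support ha (Finsupp.mem_support_iff.1 hi))

/-- degrees under substitution -/
theorem totalDegree_bind_le {E D : ℕ} (hD : P.totalDegree ≤ D) (H : σ → MvPolynomial τ ℝ)
    (hH : ∀ i ∈ P.vars, (H i).totalDegree ≤ E) : (bind₁ H P).totalDegree ≤ D * E := by
  rw [bind_eq_sum]
  refine MvPolynomial.totalDegree_finsetSum_le fun a ha => ?_
  refine (MvPolynomial.totalDegree_mul _ _).trans ?_
  rw [MvPolynomial.totalDegree_C, zero_add]
  refine (MvPolynomial.totalDegree_finsetProd _ _).trans ?_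
  calc ∑ i ∈ a.support, (H i ^ a i).totalDegree ≤ ∑ i ∈ a.support, a i * E := by
        refine Finset.sum_le_sum fun i hi => ?_
        refine (MvPolynomial.totalDegree_pow _ _).trans ?_
        exact Nat.mul_le_mul_left _ (hH i (mem_vars_of_support ha (Finsupp.mem_support_iff.1 hi)))
    _ = (∑ i ∈ a.support, a i) * E := by rw [Finset.sum_mul]
    _ ≤ D * E := Nat.mul_le_mul_right _ ((sum_le_totalDegree ha).trans hD)

/-! ### values -/

theorem eval_eq_sum (u : σ → ℝ) (P : MvPolynomial σ ℝ) :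
    eval u P = ∑ a ∈ P.support, P.coeff a * ∏ i ∈ a.support, u i ^ a i := MvPolynomial.eval_eq u P

theorem eval_le_nrm {T : ℝ} (hT : 1 ≤ T) {D : ℕ} (hD : P.totalDegree ≤ D) {u : σ → ℝ} (hu : ∀ i ∈ P.vars, |u i| ≤ T) :
    |eval u P| ≤ nrm P * T ^ D := by
  rw [eval_eq_sum]
  refine (Finset.abs_sum_le_sum_abs _ _).trans ?_
  unfold nrm
  rw [Finset.sum_mul]
  refine Finset.sum_le_sum fun a ha => ?_
  rw [abs_mul]
  refine mul_le_mul_of_nonneg_left ?_ (abs_nonneg _)
  rw [Finset.abs_prod]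
  calc ∏ i ∈ a.support, |u i ^ a i| = ∏ i ∈ a.support, |u i| ^ a i := by
        exact Finset.prod_congr rfl fun i _ => abs_pow _ _
    _ ≤ T ^ D := prod_pow_le hT ((sum_le_totalDegree ha).trans hD) (fun i _ => abs_nonneg _) fun i hi =>
        hu i (mem_vars_of_support ha (Finsupp.mem_support_iff.1 hi))

theorem pow_sub_le {T δ x y : ℝ} (hT : 1 ≤ T) (hx : |x| ≤ T) (hy : |y| ≤ T) (h : |x - y| ≤ δ) (n : ℕ) :
    |x ^ n - y ^ n| ≤ n * T ^ n * δ := by
  have hT0 : (0 : ℝ) ≤ T := by linarith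
  have hδ : 0 ≤ δ := (abs_nonneg _).trans h
  induction n with
  | zero => simp
  | succ n ih =>
    have h1 : x ^ (n + 1) - y ^ (n + 1) = x * (x ^ n - y ^ n) + (x - y) * y ^ n := by ring
    rw [h1]
    have h2 : |x * (x ^ n - y ^ n)| ≤ T * (n * T ^ n * δ) := by
      rw [abs_mul]
      exact mul_le_mul hx ih (abs_nonneg _) hT0
    have h3 : |(x - y) * y ^ n| ≤ δ * T ^ n := by
      rw [abs_mul, abs_pow]
      exact mul_le_mul h (pow_le_pow_left₀ (abs_nonneg _) hy n) (pow_nonneg (abs_nonneg _) _) hδ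
    have h4 : T ^ n ≤ T ^ (n + 1) := pow_le_pow_right₀ hT (Nat.le_succ n)
    have h5 : δ * T ^ n ≤ δ * T ^ (n + 1) := mul_le_mul_of_nonneg_left h4 hδ
    calc |x * (x ^ n - y ^ n) + (x - y) * y ^ n| ≤ T * (n * T ^ n * δ) + δ * T ^ n :=
          (abs_add_le _ _).trans (add_le_add h2 h3)
      _ ≤ T * (n * T ^ n * δ) + δ * T ^ (n + 1) := by linarith
      _ = ((n + 1 : ℕ) : ℝ) * T ^ (n + 1) * δ := by
          push_cast
          ring

theorem prod_sub_le {ι : Type*} (s : Finset ι) {T δ : ℝ} (hT : 1 ≤ T) {m : ι → ℕ} {x y : ι → ℝ}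
    (hx : ∀ i ∈ s, |x i| ≤ T) (hy : ∀ i ∈ s, |y i| ≤ T) (h : ∀ i ∈ s, |x i - y i| ≤ δ) :
    |∏ i ∈ s, x i ^ m i - ∏ i ∈ s, y i ^ m i| ≤ (∑ i ∈ s, (m i : ℝ)) * T ^ (∑ i ∈ s, m i) * δ := by
  classical
  have hT0 : (0 : ℝ) ≤ T := by linarith
  induction s using Finset.induction_on with
  | empty => simp
  | insert i s hi ih =>
    have hδ : 0 ≤ δ := (abs_nonneg _).trans (h i (Finset.mem_insert_self _ _))
    have ih' := ih (fun j hj => hx j (Finset.mem_insert_of_mem hj)) (fun j hj => hy j (Finset.mem_insert_of_mem hj))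
      (fun j hj => h j (Finset.mem_insert_of_mem hj))
    rw [Finset.prod_insert hi, Finset.prod_insert hi, Finset.sum_insert hi, Finset.sum_insert hi]
    have h1 : x i ^ m i * ∏ j ∈ s, x j ^ m j - y i ^ m i * ∏ j ∈ s, y j ^ m j =
        x i ^ m i * (∏ j ∈ s, x j ^ m j - ∏ j ∈ s, y j ^ m j) + (x i ^ m i - y i ^ m i) * ∏ j ∈ s, y j ^ m j := by ring
    rw [h1]
    have h2 : |x i ^ m i * (∏ j ∈ s, x j ^ m j - ∏ j ∈ s, y j ^ m j)| ≤
        T ^ m i * ((∑ j ∈ s, (m j : ℝ)) * T ^ (∑ j ∈ s, m j) * δ) := by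
      rw [abs_mul, abs_pow]
      exact mul_le_mul (pow_le_pow_left₀ (abs_nonneg _) (hx i (Finset.mem_insert_self _ _)) _) ih' (abs_nonneg _)
        (pow_nonneg hT0 _)
    have h3 : |(x i ^ m i - y i ^ m i) * ∏ j ∈ s, y j ^ m j| ≤ (m i * T ^ m i * δ) * T ^ (∑ j ∈ s, m j) := by
      rw [abs_mul]
      refine mul_le_mul (pow_sub_le hT (hx i (Finset.mem_insert_self _ _)) (hy i (Finset.mem_insert_self _ _))
        (h i (Finset.mem_insert_self _ _)) _) ?_ (abs_nonneg _)
        (mul_nonneg (mul_nonneg (Nat.cast_nonneg _) (pow_nonneg hT0 _)) hδ)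
      rw [Finset.abs_prod, ← Finset.prod_pow_eq_pow_sum]
      refine Finset.prod_le_prod (fun j _ => abs_nonneg _) fun j hj => ?_
      rw [abs_pow]
      exact pow_le_pow_left₀ (abs_nonneg _) (hy j (Finset.mem_insert_of_mem hj)) _
    calc _ ≤ T ^ m i * ((∑ j ∈ s, (m j : ℝ)) * T ^ (∑ j ∈ s, m j) * δ) + (m i * T ^ m i * δ) * T ^ (∑ j ∈ s, m j) :=
          (abs_add_le _ _).trans (add_le_add h2 h3)
      _ = ((m i : ℝ) + ∑ j ∈ s, (m j : ℝ)) * T ^ (m i + ∑ j ∈ s, m j) * δ := by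
          rw [pow_add]
          ring

/-- LIPSCHITZ bound -/
theorem eval_sub_le {T δ : ℝ} (hT : 1 ≤ T) (hδ : 0 ≤ δ) {D : ℕ} (hD : P.totalDegree ≤ D) {u v : σ → ℝ}
    (hu : ∀ i ∈ P.vars, |u i| ≤ T) (hv : ∀ i ∈ P.vars, |v i| ≤ T) (h : ∀ i ∈ P.vars, |u i - v i| ≤ δ) :
    |eval u P - eval v P| ≤ nrm P * (D * T ^ D * δ) := by
  have hT0 : (0 : ℝ) ≤ T := by linarith
  rw [eval_eq_sum, eval_eq_sum, ← Finset.sum_sub_distrib]
  refine (Finset.abs_sum_le_sum_abs _ _).trans ?_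
  unfold nrm
  rw [Finset.sum_mul]
  refine Finset.sum_le_sum fun a ha => ?_
  rw [← mul_sub, abs_mul]
  refine mul_le_mul_of_nonneg_left ?_ (abs_nonneg _)
  have hv' : ∀ i ∈ a.support, i ∈ P.vars := fun i hi => mem_vars_of_support ha (Finsupp.mem_support_iff.1 hi)
  refine (prod_sub_le a.support hT (fun i hi => hu i (hv' i hi)) (fun i hi => hv i (hv' i hi))
    (fun i hi => h i (hv' i hi))).trans ?_
  have h1 : ∑ i ∈ a.support, a i ≤ D := (sum_le_totalDegree ha).trans hD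
  have h2 : (∑ i ∈ a.support, (a i : ℝ)) ≤ D := by exact_mod_cast h1
  have h3 : T ^ (∑ i ∈ a.support, a i) ≤ T ^ D := pow_le_pow_right₀ hT h1
  refine mul_le_mul_of_nonneg_right ?_ hδ
  exact mul_le_mul h2 h3 (pow_nonneg hT0 _) (Nat.cast_nonneg _)

/-! ### from bounds of the coefficients -/

theorem card_support_le [Fintype σ] {D : ℕ} (hD : P.totalDegree ≤ D) : P.support.card ≤ (D + 1) ^ Fintype.card σ := by
  classical
  have h1 : P.support.card ≤ (Fintype.piFinset (fun _ : σ => Finset.range (D + 1))).card := by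
    refine Finset.card_le_card_of_injOn (fun a => fun i => a i) (fun a ha => ?_) ?_
    · rw [Finset.mem_coe, Fintype.mem_piFinset]
      intro i
      rw [Finset.mem_range]
      have h2 : a i ≤ a.sum fun _ n => n := by
        by_cases h0 : a i = 0
        · rw [h0]
          exact Nat.zero_le _
        · exact Finset.single_le_sum (f := fun j => a j) (fun _ _ => Nat.zero_le _) (Finsupp.mem_support_iff.2 h0)
      exact Nat.lt_succ_of_le (h2.trans ((sum_le_totalDegree ha).trans hD))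
    · intro a _ b _ h
      exact Finsupp.ext fun i => congrFun h i
  refine h1.trans ?_
  rw [Fintype.card_piFinset]
  simp

theorem nrm_le_of_coeff [Fintype σ] {D : ℕ} (hD : P.totalDegree ≤ D) {K : ℝ} (hK : 0 ≤ K) (h : ∀ a, |P.coeff a| ≤ K) :
    nrm P ≤ ((D : ℝ) + 1) ^ Fintype.card σ * K := by
  unfold nrm
  refine (Finset.sum_le_card_nsmul _ _ K fun a _ => h a).trans ?_
  rw [nsmul_eq_mul]
  refine mul_le_mul_of_nonneg_right ?_ hK
  have := card_support_le hD
  calc (P.support.card : ℝ) ≤ (((D + 1) ^ Fintype.card σ : ℕ) : ℝ) := by exact_mod_cast this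
    _ = ((D : ℝ) + 1) ^ Fintype.card σ := by push_cast; ring

/-! ### triangular maps -/

section tri

variable {M : ℕ} {F F' : Fin M → MvPolynomial (Fin M) ℝ} {G : Fin M → MvPolynomial τ ℝ}

theorem slv_nrm {B : ℝ} (hB : 1 ≤ B) {D : ℕ} (hF : Tri F) (hD : ∀ j, (F j).totalDegree ≤ D) (hn : ∀ j, nrm (F j) ≤ B)
    (hG : ∀ j, nrm (G j) ≤ B) (j : Fin M) : nrm (slv F G j) ≤ (2 * B) ^ ((D + 1) ^ (j.val + 1)) := by
  have hB2 : (1 : ℝ) ≤ 2 * B := by linarith
  have key : ∀ n : ℕ, ∀ j : Fin M, j.val = n → nrm (slv F G j) ≤ (2 * B) ^ ((D + 1) ^ (n + 1)) := by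
    intro n
    induction n using Nat.strong_induction_on with
    | _ n ih =>
      intro j hj
      rw [slv_eq hF G j]
      refine (nrm_sub_le _ _).trans ?_
      have h1 : nrm (bind₁ (slv F G) (F j)) ≤ nrm (F j) * ((2 * B) ^ ((D + 1) ^ n)) ^ D := by
        refine nrm_bind_le (one_le_pow₀ hB2) (hD j) _ fun i hi => ?_
        have h2 : i < j := hF j i hi
        have h2' : i.val < n := by
          rw [← hj]
          exact h2
        refine (ih i.val h2' i rfl).trans ?_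
        exact pow_le_pow_right₀ hB2 (Nat.pow_le_pow_right (Nat.succ_pos D) h2')
      have h3 : (1 : ℝ) ≤ ((2 * B) ^ ((D + 1) ^ n)) ^ D := one_le_pow₀ (one_le_pow₀ hB2)
      have h4 : nrm (G j) ≤ B * ((2 * B) ^ ((D + 1) ^ n)) ^ D :=
        (hG j).trans (le_mul_of_one_le_right (by linarith) h3)
      have h5 : nrm (F j) * ((2 * B) ^ ((D + 1) ^ n)) ^ D ≤ B * ((2 * B) ^ ((D + 1) ^ n)) ^ D :=
        mul_le_mul_of_nonneg_right (hn j) (by linarith)
      calc nrm (G j) + nrm (bind₁ (slv F G) (F j)) ≤ (2 * B) * ((2 * B) ^ ((D + 1) ^ n)) ^ D := by linarith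
        _ = (2 * B) ^ (1 + (D + 1) ^ n * D) := by
            rw [pow_add, pow_one, pow_mul]
        _ ≤ (2 * B) ^ ((D + 1) ^ (n + 1)) := by
            refine pow_le_pow_right₀ hB2 ?_
            have h6 : 1 ≤ (D + 1) ^ n := Nat.one_le_pow _ _ (Nat.succ_pos D)
            calc 1 + (D + 1) ^ n * D ≤ (D + 1) ^ n + (D + 1) ^ n * D := Nat.add_le_add_right h6 _
              _ = (D + 1) ^ (n + 1) := by ring
  exact key j.val j rfl

theorem slv_totalDegree_le {D E : ℕ} (hF : Tri F) (hD : ∀ j, (F j).totalDegree ≤ D)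
    (hG : ∀ j, (G j).totalDegree ≤ E) (j : Fin M) : (slv F G j).totalDegree ≤ E * (D + 1) ^ j.val := by
  have key : ∀ n : ℕ, ∀ j : Fin M, j.val = n → (slv F G j).totalDegree ≤ E * (D + 1) ^ n := by
    intro n
    induction n using Nat.strong_induction_on with
    | _ n ih =>
      intro j hj
      rw [slv_eq hF G j]
      refine (MvPolynomial.totalDegree_sub _ _).trans (max_le ?_ ?_)
      · refine (hG j).trans ?_
        exact Nat.le_mul_of_pos_right E (pow_pos (Nat.succ_pos D) n)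
      · by_cases hn : n = 0
        · have h0 : (bind₁ (slv F G) (F j)).totalDegree ≤ D * 0 := by
            refine totalDegree_bind_le (hD j) _ fun i hi => ?_
            have h2 : i.val < j.val := hF j i hi
            omega
          rw [Nat.mul_zero] at h0
          exact h0.trans (Nat.zero_le _)
        · obtain ⟨m, rfl⟩ : ∃ m, n = m + 1 := ⟨n - 1, by omega⟩
          have h1 : (bind₁ (slv F G) (F j)).totalDegree ≤ D * (E * (D + 1) ^ m) := by
            refine totalDegree_bind_le (hD j) _ fun i hi => ?_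
            have h2 : i.val < j.val := hF j i hi
            refine (ih i.val (by omega) i rfl).trans ?_
            exact Nat.mul_le_mul_left _ (Nat.pow_le_pow_right (Nat.succ_pos D) (by omega))
          refine h1.trans ?_
          calc D * (E * (D + 1) ^ m) ≤ (D + 1) * (E * (D + 1) ^ m) := Nat.mul_le_mul_right _ (Nat.le_succ D)
            _ = E * (D + 1) ^ (m + 1) := by ring
  exact key j.val j rfl

theorem tm_nrm {B : ℝ} (hn : ∀ j, nrm (F j) ≤ B) (j : Fin M) : nrm (tm F j) ≤ 1 + B := by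
  unfold tm
  refine (nrm_add_le _ _).trans ?_
  rw [nrm_X]
  linarith [hn j]

theorem tm_totalDegree {D : ℕ} (hD1 : 1 ≤ D) (hD : ∀ j, (F j).totalDegree ≤ D) (j : Fin M) :
    (tm F j).totalDegree ≤ D := by
  unfold tm
  refine (MvPolynomial.totalDegree_add _ _).trans (max_le ?_ (hD j))
  rw [MvPolynomial.totalDegree_X]
  exact hD1

theorem cmp_nrm {B B' : ℝ} (hB' : 0 ≤ B') {D : ℕ} (hD : ∀ j, (F j).totalDegree ≤ D) (hn : ∀ j, nrm (F j) ≤ B)
    (hn' : ∀ j, nrm (F' j) ≤ B') (j : Fin M) : nrm (cmp F F' j) ≤ B' + B * (1 + B') ^ D := by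
  unfold cmp
  refine (nrm_add_le _ _).trans (add_le_add (hn' j) ?_)
  refine (nrm_bind_le (T := 1 + B') (by linarith) (hD j) _ fun i _ => tm_nrm hn' i).trans ?_
  exact mul_le_mul_of_nonneg_right (hn j) (pow_nonneg (by linarith) _)

theorem cmp_totalDegree {D D' : ℕ} (hD1 : 1 ≤ D) (hD1' : 1 ≤ D') (hD : ∀ j, (F j).totalDegree ≤ D)
    (hD' : ∀ j, (F' j).totalDegree ≤ D') (j : Fin M) : (cmp F F' j).totalDegree ≤ D * D' := by
  unfold cmp
  refine (MvPolynomial.totalDegree_add _ _).trans (max_le ((hD' j).trans (Nat.le_mul_of_pos_left _ hD1)) ?_)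
  exact totalDegree_bind_le (hD j) _ fun i _ => tm_totalDegree hD1' hD' i

theorem inv_nrm {B : ℝ} (hB : 1 ≤ B) {D : ℕ} (hF : Tri F) (hD : ∀ j, (F j).totalDegree ≤ D) (hn : ∀ j, nrm (F j) ≤ B)
    (j : Fin M) : nrm (inv F j) ≤ (2 * B) ^ ((D + 1) ^ (M + 1)) := by
  have hB2 : (1 : ℝ) ≤ 2 * B := by linarith
  unfold inv
  rw [nrm_neg]
  have h1 : nrm (bind₁ (slv F X) (F j)) ≤ nrm (F j) * ((2 * B) ^ ((D + 1) ^ M)) ^ D := by
    refine nrm_bind_le (one_le_pow₀ hB2) (hD j) _ fun i _ => ?_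
    refine (slv_nrm hB hF hD hn (fun i => ?_) i).trans ?_
    · rw [nrm_X]
      exact hB
    · exact pow_le_pow_right₀ hB2 (Nat.pow_le_pow_right (Nat.succ_pos D) i.isLt)
  refine h1.trans ?_
  have h2 : nrm (F j) ≤ 2 * B := (hn j).trans (by linarith)
  calc nrm (F j) * ((2 * B) ^ ((D + 1) ^ M)) ^ D ≤ (2 * B) * ((2 * B) ^ ((D + 1) ^ M)) ^ D :=
        mul_le_mul_of_nonneg_right h2 (by positivity)
    _ = (2 * B) ^ (1 + (D + 1) ^ M * D) := by rw [pow_add, pow_one, pow_mul]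
    _ ≤ (2 * B) ^ ((D + 1) ^ (M + 1)) := by
        refine pow_le_pow_right₀ hB2 ?_
        have h6 : 1 ≤ (D + 1) ^ M := Nat.one_le_pow _ _ (Nat.succ_pos D)
        calc 1 + (D + 1) ^ M * D ≤ (D + 1) ^ M + (D + 1) ^ M * D := Nat.add_le_add_right h6 _
          _ = (D + 1) ^ (M + 1) := by ring

theorem inv_totalDegree {D : ℕ} (hF : Tri F) (hD : ∀ j, (F j).totalDegree ≤ D) (j : Fin M) :
    (inv F j).totalDegree ≤ D * (D + 1) ^ M := by
  unfold inv
  rw [MvPolynomial.totalDegree_neg]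
  refine totalDegree_bind_le (hD j) _ fun i _ => ?_
  have h1 := slv_totalDegree_le (G := (X : Fin M → MvPolynomial (Fin M) ℝ)) (E := 1) hF hD
    (fun j => (MvPolynomial.totalDegree_X j).le) i
  rw [one_mul] at h1
  exact h1.trans (Nat.pow_le_pow_right (Nat.succ_pos D) i.isLt.le)

end tri

end Pool.Agent.Helper77.WDG
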