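import Pool.Agent.Helper77.WDG.Wd

/-! TRIANGULAR MAPS of reduced weighted degree: `tm P = (X_j + P_j)`, `P_j` in the variables `i < j`; composition,
inverse, solution of `H_j + P_j(H) = G_j` (charts in the coordinates of a frame), weighted degrees. -/

set_option autoImplicit false

namespace Pool.Agent.Helper77.WDG

open MvPolynomial Finset

variable {M : ℕ} {τ : Type*} {R : Type*} [CommRing R]

/-- `P j` contains only the variables `i < j` -/
def Tri (P : Fin M → MvPolynomial (Fin M) R) : Prop := ∀ j, ∀ i ∈ (P j).vars, i < j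

/-- the triangular map -/
noncomputable def tm (P : Fin M → MvPolynomial (Fin M) R) (j : Fin M) : MvPolynomial (Fin M) R := X j + P j

theorem bind_congr {σ : Type*} {f g : σ → MvPolynomial τ R} {p : MvPolynomial σ R} (h : ∀ i ∈ p.vars, f i = g i) :
    bind₁ f p = bind₁ g p := by
  have := MvPolynomial.hom_congr_vars (f₁ := (bind₁ f : MvPolynomial σ R →ₐ[R] _).toRingHom)
    (f₂ := (bind₁ g : MvPolynomial σ R →ₐ[R] _).toRingHom) (p₁ := p) (p₂ := p) (by
      ext x
      simp) (fun i hi _ => by
      simpa using h i hi) rfl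
  exact this

theorem eval_congr {σ : Type*} {f g : σ → R} {p : MvPolynomial σ R} (h : ∀ i ∈ p.vars, f i = g i) :
    eval f p = eval g p := by
  refine MvPolynomial.hom_congr_vars (f₁ := eval f) (f₂ := eval g) (p₁ := p) (p₂ := p) ?_ (fun i hi _ => ?_) rfl
  · ext x
    simp
  · simpa using h i hi

/-- the solution of `H_j + P_j(H) = G_j` -/
noncomputable def slv (P : Fin M → MvPolynomial (Fin M) R) (G : Fin M → MvPolynomial τ R) (j : Fin M) :
    MvPolynomial τ R :=
  G j - bind₁ (fun i => if _h : i < j then slv P G i else 0) (P j)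
termination_by j.val
decreasing_by exact _h

variable {P Q : Fin M → MvPolynomial (Fin M) R} {G H : Fin M → MvPolynomial τ R}

theorem slv_eq (hP : Tri P) (G : Fin M → MvPolynomial τ R) (j : Fin M) :
    slv P G j = G j - bind₁ (slv P G) (P j) := by
  conv_lhs => rw [slv]
  congr 1
  refine bind_congr fun i hi => ?_
  rw [dif_pos (hP j i hi)]

theorem slv_add (hP : Tri P) (G : Fin M → MvPolynomial τ R) (j : Fin M) :
    slv P G j + bind₁ (slv P G) (P j) = G j := by
  rw [slv_eq hP G j, sub_add_cancel]

theorem slv_unique (hP : Tri P) (h : ∀ j, H j + bind₁ H (P j) = G j) : H = slv P G := by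
  have key : ∀ n : ℕ, ∀ j : Fin M, j.val = n → H j = slv P G j := by
    intro n
    induction n using Nat.strong_induction_on with
    | _ n ih =>
      intro j hj
      rw [slv_eq hP G j, ← h j]
      have h1 : bind₁ H (P j) = bind₁ (slv P G) (P j) := by
        refine bind_congr fun i hi => ?_
        have h2 : i < j := hP j i hi
        exact ih i.val (by rw [← hj]; exact h2) i rfl
      rw [h1, add_sub_cancel_right]
  funext j
  exact key j.val j rfl

/-- substitution into the triangular map -/
theorem bind_tm (H : Fin M → MvPolynomial τ R) (j : Fin M) : bind₁ H (tm P j) = H j + bind₁ H (P j) := by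
  rw [tm, map_add, bind₁_X_right]

/-- composition: `tm P ∘ tm Q = tm (cmp P Q)` -/
noncomputable def cmp (P Q : Fin M → MvPolynomial (Fin M) R) (j : Fin M) : MvPolynomial (Fin M) R :=
  Q j + bind₁ (tm Q) (P j)

theorem bind_cmp (j : Fin M) : bind₁ (tm Q) (tm P j) = tm (cmp P Q) j := by
  rw [bind_tm, tm, tm, cmp, add_assoc]

theorem Tri.cmp (hP : Tri P) (hQ : Tri Q) : Tri (cmp P Q) := by
  classical
  intro j i hi
  have h1 := MvPolynomial.vars_add_subset _ _ hi
  rcases Finset.mem_union.1 h1 with h | h
  · exact hQ j i h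
  · have h2 := MvPolynomial.vars_bind₁ _ _ h
    rw [Finset.mem_biUnion] at h2
    obtain ⟨l, hl, h3⟩ := h2
    have h4 := MvPolynomial.vars_add_subset _ _ h3
    have hlj := hP j l hl
    rcases Finset.mem_union.1 h4 with h5 | h5
    · have h6 : (X l : MvPolynomial (Fin M) R).vars ⊆ {l} := by
        by_cases hR : Nontrivial R
        · rw [MvPolynomial.vars_X]
        · rw [not_nontrivial_iff_subsingleton] at hR
          have : (X l : MvPolynomial (Fin M) R) = 0 := Subsingleton.elim _ _
          rw [this, MvPolynomial.vars_0]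
          exact Finset.empty_subset _
      have h7 := h6 h5
      rw [Finset.mem_singleton] at h7
      rw [h7]
      exact hlj
    · exact (hQ l i h5).trans hlj

/-- the inverse map is `tm (inv P)` -/
noncomputable def inv (P : Fin M → MvPolynomial (Fin M) R) (j : Fin M) : MvPolynomial (Fin M) R :=
  - bind₁ (slv P X) (P j)

theorem tm_inv (hP : Tri P) : tm (inv P) = slv P X := by
  funext j
  rw [tm, inv, slv_eq hP X j, sub_eq_add_neg]

theorem vars_slv_X (hP : Tri P) (j : Fin M) : ∀ i ∈ (slv P (X : Fin M → MvPolynomial (Fin M) R) j).vars, i ≤ j := by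
  classical
  have key : ∀ n : ℕ, ∀ j : Fin M, j.val = n → ∀ i ∈ (slv P (X : Fin M → MvPolynomial (Fin M) R) j).vars, i ≤ j := by
    intro n
    induction n using Nat.strong_induction_on with
    | _ n ih =>
      intro j hj i hi
      rw [slv_eq hP X j, sub_eq_add_neg] at hi
      have h1 := MvPolynomial.vars_add_subset _ _ hi
      rcases Finset.mem_union.1 h1 with h | h
      · have h6 : (X j : MvPolynomial (Fin M) R).vars ⊆ {j} := by
          by_cases hR : Nontrivial R
          · rw [MvPolynomial.vars_X]
          · rw [not_nontrivial_iff_subsingleton] at hR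
            have : (X j : MvPolynomial (Fin M) R) = 0 := Subsingleton.elim _ _
            rw [this, MvPolynomial.vars_0]
            exact Finset.empty_subset _
        have h7 := h6 h
        rw [Finset.mem_singleton] at h7
        exact h7.le
      · rw [MvPolynomial.vars_neg] at h
        have h2 := MvPolynomial.vars_bind₁ _ _ h
        rw [Finset.mem_biUnion] at h2
        obtain ⟨l, hl, h3⟩ := h2
        have hlj := hP j l hl
        exact (ih l.val (by rw [← hj]; exact hlj) l rfl i h3).trans hlj.le
  exact key j.val j rfl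

theorem Tri.inv (hP : Tri P) : Tri (inv P) := by
  classical
  intro j i hi
  rw [WDG.inv, MvPolynomial.vars_neg] at hi
  have h2 := MvPolynomial.vars_bind₁ _ _ hi
  rw [Finset.mem_biUnion] at h2
  obtain ⟨l, hl, h3⟩ := h2
  exact (vars_slv_X hP l i h3).trans_lt (hP j l hl)

/-- `tm P ∘ tm (inv P) = id` -/
theorem bind_inv_right (hP : Tri P) (j : Fin M) : bind₁ (tm (inv P)) (tm P j) = X j := by
  rw [bind_tm, tm_inv hP, slv_add hP]

/-- `tm (inv P) ∘ tm P = id` -/
theorem bind_inv_left (hP : Tri P) (j : Fin M) : bind₁ (tm P) (tm (inv P) j) = X j := by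
  have h1 : (fun j => bind₁ (tm P) (tm (inv P) j)) = slv P (tm P) := by
    refine slv_unique hP fun j => ?_
    rw [tm_inv hP]
    have h2 := congrArg (bind₁ (tm P)) (slv_add hP (X : Fin M → MvPolynomial (Fin M) R) j)
    rw [map_add, bind₁_X_right, bind₁_bind₁] at h2
    exact h2
  have h3 : (X : Fin M → MvPolynomial (Fin M) R) = slv P (tm P) := by
    refine slv_unique hP fun j => ?_
    rw [tm, MvPolynomial.bind₁_X_left]
    rfl
  have h4 := congrFun (h1.trans h3.symm) j
  exact h4

/-! ### evaluation -/

theorem eval_tm (u : Fin M → R) (j : Fin M) : eval u (tm P j) = u j + eval u (P j) := by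
  rw [tm, map_add, eval_X]

theorem eval_bind {σ : Type*} (u : τ → R) (f : σ → MvPolynomial τ R) (p : MvPolynomial σ R) :
    eval u (bind₁ f p) = eval (fun i => eval u (f i)) p := by
  exact MvPolynomial.eval₂Hom_bind₁ (RingHom.id R) u f p

theorem eval_slv (hP : Tri P) (u : τ → R) (j : Fin M) :
    eval u (slv P G j) + eval (fun i => eval u (slv P G i)) (P j) = eval u (G j) := by
  rw [← eval_bind, ← map_add, slv_add hP]

/-- uniqueness of the solution at a point -/
theorem eval_unique (hP : Tri P) {a b : Fin M → R} (h : ∀ j, a j + eval a (P j) = b j + eval b (P j)) : a = b := by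
  have key : ∀ n : ℕ, ∀ j : Fin M, j.val = n → a j = b j := by
    intro n
    induction n using Nat.strong_induction_on with
    | _ n ih =>
      intro j hj
      have h1 : eval a (P j) = eval b (P j) := by
        refine eval_congr fun i hi => ?_
        have h2 : i < j := hP j i hi
        exact ih i.val (by rw [← hj]; exact h2) i rfl
      have h3 := h j
      rw [h1] at h3
      exact add_right_cancel h3
  funext j
  exact key j.val j rfl

/-! ### weighted degrees -/

/-- triangular, of weighted degree less than `w j` in the component `j` -/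
structure TriW (w : Fin M → ℝ) (P : Fin M → MvPolynomial (Fin M) R) : Prop where
  tri : Tri P
  lt : ∀ j, WLt w (w j) (P j)

variable {w : Fin M → ℝ} [Fintype τ] {v : τ → ℝ}

theorem TriW.tm_le (hP : TriW w P) (j : Fin M) : WLe w (w j) (tm P j) :=
  (WLe.X le_rfl).add (hP.lt j).le

/-- CHARTS in the coordinates of a frame keep their weighted degrees -/
theorem TriW.slv_le (hP : TriW w P) (hG : ∀ j, WLe v (w j) (G j)) (j : Fin M) : WLe v (w j) (slv P G j) := by
  have key : ∀ n : ℕ, ∀ j : Fin M, j.val = n → WLe v (w j) (slv P G j) := by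
    intro n
    induction n using Nat.strong_induction_on with
    | _ n ih =>
      intro j hj
      rw [slv_eq hP.tri G j]
      refine (hG j).sub ((hP.lt j).le.bind _ fun i hi => ?_)
      have h2 : i < j := hP.tri j i hi
      exact ih i.val (by rw [← hj]; exact h2) i rfl
  exact key j.val j rfl

/-- in the form of `Hom.wd` -/
theorem TriW.slv_totalDegree (hP : TriW w P) (hw : ∀ j, 0 ≤ w j) (hG : ∀ j, ((G j).totalDegree : ℝ) ≤ w j)
    (j : Fin M) : ((slv P G j).totalDegree : ℝ) ≤ w j := by
  rw [← wLe_one_iff (hw j)]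
  exact hP.slv_le (fun j => (wLe_one_iff (hw j)).2 (hG j)) j

theorem TriW.cmp (hP : TriW w P) (hQ : TriW w Q) : TriW w (cmp P Q) :=
  ⟨hP.tri.cmp hQ.tri, fun j => (hQ.lt j).add ((hP.lt j).bind _ fun i _ => hQ.tm_le i)⟩

theorem TriW.inv (hP : TriW w P) : TriW w (inv P) :=
  ⟨hP.tri.inv, fun j => ((hP.lt j).bind _ fun i _ => hP.slv_le (fun _ => WLe.X le_rfl) i).neg⟩

/-- the transition between two frames `x = tm P (U) = tm Q (U')`: `U = tm (trs P Q) (U')` -/
noncomputable def trs (P Q : Fin M → MvPolynomial (Fin M) R) : Fin M → MvPolynomial (Fin M) R := cmp (inv P) Q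

theorem TriW.trs (hP : TriW w P) (hQ : TriW w Q) : TriW w (trs P Q) := hP.inv.cmp hQ

theorem bind_trs (hP : Tri P) (j : Fin M) : bind₁ (tm (trs P Q)) (tm P j) = tm Q j := by
  have h1 : ∀ i, tm (trs P Q) i = bind₁ (tm Q) (tm (inv P) i) := fun i => (bind_cmp i).symm
  have h2 : bind₁ (tm (trs P Q)) (tm P j) = bind₁ (tm Q) (bind₁ (tm (inv P)) (tm P j)) := by
    rw [bind₁_bind₁]
    exact bind_congr fun i _ => h1 i
  rw [h2, bind_inv_right hP, bind₁_X_right]

end Pool.Agent.Helper77.WDG
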