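import Mathlib

/-! WEIGHTED DEGREES with real weights: `wt w a = Σ a_i w_i`, polynomials of weighted degree at most `d` (`WLe`) and less
than `d` (`WLt`); sums, products, substitutions. -/

set_option autoImplicit false

namespace Pool.Agent.Helper77.WDG

open MvPolynomial Finset

variable {σ τ : Type*} [Fintype σ] [Fintype τ] {R : Type*} [CommRing R]

/-- the weight of an exponent vector -/
noncomputable def wt (w : σ → ℝ) (a : σ →₀ ℕ) : ℝ := ∑ i, (a i : ℝ) * w i

theorem wt_zero (w : σ → ℝ) : wt w 0 = 0 := by simp [wt]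

theorem wt_add (w : σ → ℝ) (a b : σ →₀ ℕ) : wt w (a + b) = wt w a + wt w b := by
  unfold wt
  rw [← Finset.sum_add_distrib]
  refine Finset.sum_congr rfl fun i _ => ?_
  rw [Finsupp.add_apply]
  push_cast
  ring

theorem wt_nonneg {w : σ → ℝ} (hw : ∀ i, 0 ≤ w i) (a : σ →₀ ℕ) : 0 ≤ wt w a :=
  Finset.sum_nonneg fun i _ => mul_nonneg (Nat.cast_nonneg _) (hw i)

theorem wt_single (w : σ → ℝ) (i : σ) (n : ℕ) : wt w (Finsupp.single i n) = n * w i := by
  classical
  unfold wt
  rw [Finset.sum_eq_single i]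
  · rw [Finsupp.single_eq_same]
  · intro j _ hj
    rw [Finsupp.single_eq_of_ne hj]
    simp
  · intro h
    exact absurd (Finset.mem_univ i) h

theorem wt_pos {w : σ → ℝ} (hw : ∀ i, 0 < w i) {a : σ →₀ ℕ} (ha : a ≠ 0) : 0 < wt w a := by
  obtain ⟨i, hi⟩ : ∃ i, a i ≠ 0 := by
    by_contra h
    push Not at h
    exact ha (Finsupp.ext h)
  have h1 : (a i : ℝ) * w i ≤ wt w a :=
    Finset.single_le_sum (f := fun i => (a i : ℝ) * w i) (fun j _ => mul_nonneg (Nat.cast_nonneg _) (hw j).le)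
      (Finset.mem_univ i)
  have h2 : 0 < (a i : ℝ) * w i := mul_pos (by exact_mod_cast Nat.pos_of_ne_zero hi) (hw i)
  linarith

/-- the degree is bounded by the weight if all weights are at least one -/
theorem deg_le_wt {w : σ → ℝ} (hw : ∀ i, 1 ≤ w i) (a : σ →₀ ℕ) : ((a.sum fun _ n => n : ℕ) : ℝ) ≤ wt w a := by
  classical
  have h1 : (a.sum fun _ n => n : ℕ) = ∑ i, a i := by
    rw [Finsupp.sum_fintype]
    intro i
    rfl
  rw [h1]
  push_cast
  unfold wt
  exact Finset.sum_le_sum fun i _ => le_mul_of_one_le_right (Nat.cast_nonneg _) (hw i)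

theorem wt_one (a : σ →₀ ℕ) : wt (fun _ => (1 : ℝ)) a = ((a.sum fun _ n => n : ℕ) : ℝ) := by
  classical
  have h1 : (a.sum fun _ n => n : ℕ) = ∑ i, a i := by
    rw [Finsupp.sum_fintype]
    intro i
    rfl
  rw [h1]
  push_cast
  unfold wt
  exact Finset.sum_congr rfl fun i _ => mul_one _

/-- weighted degree at most `d` -/
def WLe (w : σ → ℝ) (d : ℝ) (P : MvPolynomial σ R) : Prop := ∀ a ∈ P.support, wt w a ≤ d

/-- weighted degree less than `d` -/
def WLt (w : σ → ℝ) (d : ℝ) (P : MvPolynomial σ R) : Prop := ∃ d' < d, WLe w d' P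

variable {w : σ → ℝ} {v : τ → ℝ} {d d' : ℝ} {P Q : MvPolynomial σ R}

theorem WLe.mono (h : WLe w d P) (hd : d ≤ d') : WLe w d' P := fun a ha => (h a ha).trans hd

theorem WLt.le (h : WLt w d P) : WLe w d P := by
  obtain ⟨e, he, h1⟩ := h
  exact h1.mono he.le

theorem WLt.mono (h : WLt w d P) (hd : d ≤ d') : WLt w d' P := by
  obtain ⟨e, he, h1⟩ := h
  exact ⟨e, he.trans_le hd, h1⟩

theorem WLe.zero : WLe w d (0 : MvPolynomial σ R) := by
  intro a ha
  simp at ha

theorem WLe.C (hd : 0 ≤ d) (c : R) : WLe w d (MvPolynomial.C c : MvPolynomial σ R) := by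
  classical
  intro a ha
  have h1 : a ∈ (MvPolynomial.monomial (0 : σ →₀ ℕ) c).support := ha
  have h2 := MvPolynomial.support_monomial_subset h1
  rw [Finset.mem_singleton] at h2
  rw [h2, wt_zero]
  exact hd

theorem WLe.one (hd : 0 ≤ d) : WLe w d (1 : MvPolynomial σ R) := by
  have := WLe.C (w := w) (R := R) hd 1
  rwa [MvPolynomial.C_1] at this

theorem WLe.X {i : σ} (hd : w i ≤ d) : WLe w d (MvPolynomial.X i : MvPolynomial σ R) := by
  classical
  intro a ha
  have h1 : a ∈ (MvPolynomial.monomial (Finsupp.single i 1) (1 : R)).support := ha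
  have h2 := MvPolynomial.support_monomial_subset h1
  rw [Finset.mem_singleton] at h2
  rw [h2, wt_single]
  simpa using hd

theorem WLe.add (h1 : WLe w d P) (h2 : WLe w d Q) : WLe w d (P + Q) := by
  classical
  intro a ha
  rcases Finset.mem_union.1 (MvPolynomial.support_add ha) with h | h
  · exact h1 a h
  · exact h2 a h

theorem WLe.neg (h : WLe w d P) : WLe w d (-P) := by
  intro a ha
  rw [MvPolynomial.support_neg] at ha
  exact h a ha

theorem WLe.sub (h1 : WLe w d P) (h2 : WLe w d Q) : WLe w d (P - Q) := by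
  rw [sub_eq_add_neg]
  exact h1.add h2.neg

theorem WLe.mul {e : ℝ} (h1 : WLe w d P) (h2 : WLe w e Q) : WLe w (d + e) (P * Q) := by
  classical
  intro a ha
  have h3 := MvPolynomial.support_mul P Q ha
  rw [Finset.mem_add] at h3
  obtain ⟨b, hb, c, hc, rfl⟩ := h3
  rw [wt_add]
  exact add_le_add (h1 b hb) (h2 c hc)

theorem WLe.sum {ι : Type*} (s : Finset ι) (f : ι → MvPolynomial σ R) (h : ∀ i ∈ s, WLe w d (f i)) :
    WLe w d (∑ i ∈ s, f i) := by
  classical
  induction s using Finset.induction_on with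
  | empty =>
    rw [Finset.sum_empty]
    exact WLe.zero
  | insert i s hi ih =>
    rw [Finset.sum_insert hi]
    exact (h i (Finset.mem_insert_self _ _)).add (ih fun j hj => h j (Finset.mem_insert_of_mem hj))

theorem WLe.prod {ι : Type*} (s : Finset ι) (f : ι → MvPolynomial σ R) (e : ι → ℝ) (h : ∀ i ∈ s, WLe w (e i) (f i)) :
    WLe w (∑ i ∈ s, e i) (∏ i ∈ s, f i) := by
  classical
  induction s using Finset.induction_on with
  | empty =>
    rw [Finset.sum_empty, Finset.prod_empty]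
    exact WLe.one le_rfl
  | insert i s hi ih =>
    rw [Finset.sum_insert hi, Finset.prod_insert hi]
    exact (h i (Finset.mem_insert_self _ _)).mul (ih fun j hj => h j (Finset.mem_insert_of_mem hj))

theorem WLe.pow (h : WLe w d P) (n : ℕ) : WLe w (n * d) (P ^ n) := by
  have h1 := WLe.prod (Finset.range n) (fun _ => P) (fun _ => d) (fun _ _ => h)
  simpa using h1

theorem WLe.C_mul (h : WLe w d P) (c : R) : WLe w d (MvPolynomial.C c * P) := by
  have h1 : WLe w (0 + d) (MvPolynomial.C c * P) := (WLe.C le_rfl c).mul h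
  rwa [zero_add] at h1

omit [Fintype σ] in
theorem mem_vars_of_support {i : σ} {a : σ →₀ ℕ} (ha : a ∈ P.support) (hi : a i ≠ 0) : i ∈ P.vars := by
  rw [MvPolynomial.mem_vars_iff_mem_support]
  exact ⟨a, ha, Finsupp.mem_support_iff.2 hi⟩

/-- SUBSTITUTION of polynomials of weighted degree `w i` for the variables -/
theorem WLe.bind (h : WLe w d P) (H : σ → MvPolynomial τ R) (hH : ∀ i ∈ P.vars, WLe v (w i) (H i)) :
    WLe v d (bind₁ H P) := by
  classical
  have h1 : bind₁ H P = ∑ a ∈ P.support, MvPolynomial.C (P.coeff a) * ∏ i, H i ^ a i := by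
    conv_lhs => rw [P.as_sum]
    rw [map_sum]
    refine Finset.sum_congr rfl fun a _ => ?_
    rw [bind₁_monomial]
    congr 1
    exact Finset.prod_subset (Finset.subset_univ _) fun i _ hi => by
      rw [Finsupp.notMem_support_iff.1 hi, pow_zero]
  rw [h1]
  refine WLe.sum _ _ fun a ha => ?_
  refine WLe.C_mul ?_ _
  have h2 : WLe v (∑ i, (a i : ℝ) * w i) (∏ i, H i ^ a i) := by
    refine WLe.prod _ _ _ fun i _ => ?_
    by_cases h0 : a i = 0
    · rw [h0, pow_zero, Nat.cast_zero, zero_mul]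
      exact WLe.one le_rfl
    · exact (hH i (mem_vars_of_support ha h0)).pow _
  exact h2.mono (h a ha)

theorem WLt.bind (h : WLt w d P) (H : σ → MvPolynomial τ R) (hH : ∀ i ∈ P.vars, WLe v (w i) (H i)) :
    WLt v d (bind₁ H P) := by
  obtain ⟨e, he, h1⟩ := h
  exact ⟨e, he, h1.bind H hH⟩

theorem WLt.add (h1 : WLt w d P) (h2 : WLt w d Q) : WLt w d (P + Q) := by
  obtain ⟨e1, he1, a1⟩ := h1
  obtain ⟨e2, he2, a2⟩ := h2
  exact ⟨max e1 e2, max_lt he1 he2, (a1.mono (le_max_left _ _)).add (a2.mono (le_max_right _ _))⟩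

theorem WLt.neg (h : WLt w d P) : WLt w d (-P) := by
  obtain ⟨e, he, a⟩ := h
  exact ⟨e, he, a.neg⟩

theorem WLt.sub (h1 : WLt w d P) (h2 : WLt w d Q) : WLt w d (P - Q) := by
  rw [sub_eq_add_neg]
  exact h1.add h2.neg

theorem WLt.C (hd : 0 < d) (c : R) : WLt w d (MvPolynomial.C c : MvPolynomial σ R) := ⟨0, hd, WLe.C le_rfl c⟩

theorem WLt.zero : WLt w d (0 : MvPolynomial σ R) := ⟨d - 1, by linarith, WLe.zero⟩

/-- the form of `Frm.red` -/
theorem wLt_iff (hd : 0 < d) : WLt w d P ↔ ∀ a ∈ P.support, a ≠ 0 → wt w a < d := by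
  classical
  constructor
  · rintro ⟨e, he, h⟩ a ha _
    exact (h a ha).trans_lt he
  · intro h
    by_cases hP : P.support.Nonempty
    · obtain ⟨b, hb, hmax⟩ := P.support.exists_max_image (wt w) hP
      refine ⟨wt w b, ?_, fun a ha => hmax a ha⟩
      by_cases h0 : b = 0
      · rw [h0, wt_zero]
        exact hd
      · exact h b hb h0
    · rw [Finset.not_nonempty_iff_eq_empty] at hP
      refine ⟨0, hd, fun a ha => ?_⟩
      rw [hP] at ha
      simp at ha

/-- all weights one: the total degree -/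
theorem wLe_one_iff (hd : 0 ≤ d) : WLe (fun _ : σ => (1 : ℝ)) d P ↔ (P.totalDegree : ℝ) ≤ d := by
  constructor
  · intro h
    have h1 : P.totalDegree ≤ ⌊d⌋₊ := by
      apply Finset.sup_le
      intro a ha
      have h2 := h a ha
      rw [wt_one] at h2
      exact Nat.le_floor h2
    calc (P.totalDegree : ℝ) ≤ (⌊d⌋₊ : ℝ) := by exact_mod_cast h1
      _ ≤ d := Nat.floor_le hd
  · intro h a ha
    rw [wt_one]
    have h1 : (a.sum fun _ n => n) ≤ P.totalDegree := MvPolynomial.le_totalDegree ha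
    calc ((a.sum fun _ n => n : ℕ) : ℝ) ≤ (P.totalDegree : ℝ) := by exact_mod_cast h1
      _ ≤ d := h

/-- weights at least one: the total degree is at most the weighted degree -/
theorem WLe.totalDegree (hw : ∀ i, 1 ≤ w i) (hd : 0 ≤ d) (h : WLe w d P) : (P.totalDegree : ℝ) ≤ d := by
  rw [← wLe_one_iff hd]
  intro a ha
  rw [wt_one]
  exact (deg_le_wt hw a).trans (h a ha)

/-- scaling of the weights -/
theorem wt_smul (c : ℝ) (a : σ →₀ ℕ) : wt (fun i => w i * c) a = wt w a * c := by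
  unfold wt
  rw [Finset.sum_mul]
  exact Finset.sum_congr rfl fun i _ => by ring

end Pool.Agent.Helper77.WDG
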