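import Pool.Agent.Helper77.WDG.Red
import Pool.Agent.Helper3.LF.Cap

/-! THE FAR PAST bounds the degree: a polynomial which is bounded on the unit cube and is at most `r ^ w` on the cube of
radius `r` is, on the cube of radius `r` and in the unit `r ^ w`, a polynomial of degree at most `w` with bounded
coefficients, up to `r ^ (⌊w⌋ + 1 - w)`. -/

set_option autoImplicit false

namespace Pool.Agent.Helper77.WDG

open MvPolynomial Finset Pool.Agent.Helper3.LF

/-- coefficients from the values on the unit cube -/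
theorem exists_coeff_cube (e D : ℕ) : ∃ C : ℝ, 1 ≤ C ∧ ∀ P : MvPolynomial (Fin e) ℝ, P.totalDegree ≤ D → ∀ B : ℝ,
    (∀ y : Fin e → ℝ, (∀ i, |y i| ≤ 1) → |eval y P| ≤ B) → ∀ a, |P.coeff a| ≤ C * B := by
  classical
  obtain ⟨C, hC0, hC⟩ := exists_coeff e D
  have hnn := nn_one e D
  refine ⟨Real.sqrt (C * nn e D) + 1, by linarith [Real.sqrt_nonneg (C * nn e D)], fun P hP B hB a => ?_⟩
  have hB0 : 0 ≤ B := (abs_nonneg _).trans (hB 0 (fun i => by simp))
  obtain ⟨c, rfl⟩ := exists_pol P hP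
  have h1 : ph D (pol c) 1 0 ≤ nn e D * B ^ 2 := by
    unfold ph
    refine (Finset.sum_le_card_nsmul _ _ (B ^ 2) fun j _ => ?_).trans (le_of_eq ?_)
    · have h2 := hB (nodp D 0 1 j) (fun i => by
        unfold nodp
        rw [Pi.zero_apply, zero_add, one_mul, abs_of_nonneg (nod_nonneg D _)]
        exact nod_le D _ (Nat.le_of_lt_succ (j i).2))
      rw [← sq_abs]
      exact pow_le_pow_left₀ (abs_nonneg _) h2 2
    · rw [nsmul_eq_mul, card_nodes]
  have h3 : dotProduct c c ≤ C * (nn e D * B ^ 2) := (hC c).trans (mul_le_mul_of_nonneg_left h1 hC0)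
  have key : ∀ b : Mon e D, |c b| ≤ (Real.sqrt (C * nn e D) + 1) * B := by
    intro b
    have h4 : c b ^ 2 ≤ dotProduct c c := by
      unfold dotProduct
      have := Finset.single_le_sum (f := fun i => c i * c i) (fun i _ => mul_self_nonneg _) (Finset.mem_univ b)
      rw [sq]
      exact this
    have h5 : |c b| ≤ Real.sqrt (C * nn e D * B ^ 2) := by
      rw [← Real.sqrt_sq_eq_abs]
      apply Real.sqrt_le_sqrt
      calc c b ^ 2 ≤ C * (nn e D * B ^ 2) := h4.trans h3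
        _ = C * nn e D * B ^ 2 := by ring
    have h6 : Real.sqrt (C * nn e D * B ^ 2) = Real.sqrt (C * nn e D) * B := by
      rw [Real.sqrt_mul (mul_nonneg hC0 (by linarith)), Real.sqrt_sq hB0]
    rw [h6] at h5
    nlinarith
  by_cases ha : ∃ b : Mon e D, b.ex = a
  · obtain ⟨b, rfl⟩ := ha
    rw [coeff_pol]
    exact key b
  · have h7 : (pol c).coeff a = 0 := by
      unfold pol Mon.mon
      rw [coeff_sum]
      refine Finset.sum_eq_zero fun b _ => ?_
      rw [coeff_C_mul, coeff_monomial, if_neg (fun h => ha ⟨b, h⟩), mul_zero]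
    rw [h7, abs_zero]
    exact mul_nonneg (by linarith [Real.sqrt_nonneg (C * nn e D)]) hB0

/-- the degree of a monomial -/
def dgm {σ : Type*} (a : σ →₀ ℕ) : ℕ := a.sum fun _ n => n

theorem prod_const_pow {σ : Type*} (r : ℝ) (a : σ →₀ ℕ) : ∏ i ∈ a.support, r ^ a i = r ^ dgm a :=
  Finset.prod_pow_eq_pow_sum _ _ _

/-- coefficients from the values on a cube of radius `r` -/
theorem exists_coeff_rad (e D : ℕ) : ∃ C : ℝ, 1 ≤ C ∧ ∀ P : MvPolynomial (Fin e) ℝ, P.totalDegree ≤ D → ∀ B r : ℝ,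
    0 < r → (∀ y : Fin e → ℝ, (∀ i, |y i| ≤ r) → |eval y P| ≤ B) → ∀ a, |P.coeff a| * r ^ dgm a ≤ C * B := by
  obtain ⟨C, hC1, hC⟩ := exists_coeff_cube e D
  refine ⟨C, hC1, fun P hP B r hr hB a => ?_⟩
  have h1 := hC (scl (fun _ => r) P) ((scl_totalDegree _ _).trans hP) B (fun y hy => by
    rw [eval_scl]
    refine hB _ fun i => ?_
    rw [abs_mul, abs_of_pos hr]
    exact mul_le_of_le_one_right hr.le (hy i)) a
  rw [coeff_scl, prod_const_pow, abs_mul, abs_of_pos (pow_pos hr _)] at h1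
  exact h1

/-- the truncated chart, in the scaled variables -/
noncomputable def tch {e : ℕ} (r w : ℝ) (f : MvPolynomial (Fin e) ℝ) : MvPolynomial (Fin e) ℝ :=
  C (r ^ (- w)) * scl (fun _ => r) (cut (fun a => (dgm a : ℝ) ≤ w) f)

theorem tch_totalDegree {e : ℕ} {r w : ℝ} (hw : 0 ≤ w) (f : MvPolynomial (Fin e) ℝ) :
    ((tch r w f).totalDegree : ℝ) ≤ w := by
  have h1 : (tch r w f).totalDegree ≤ ⌊w⌋₊ := by
    unfold tch
    refine (MvPolynomial.totalDegree_mul _ _).trans ?_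
    rw [MvPolynomial.totalDegree_C, zero_add]
    refine (scl_totalDegree _ _).trans ?_
    apply Finset.sup_le
    intro a ha
    exact Nat.le_floor (mem_support_cut ha)
  calc ((tch r w f).totalDegree : ℝ) ≤ (⌊w⌋₊ : ℝ) := by exact_mod_cast h1
    _ ≤ w := Nat.floor_le hw

theorem tch_degree_le {e : ℕ} {r w : ℝ} (f : MvPolynomial (Fin e) ℝ) : (tch r w f).totalDegree ≤ f.totalDegree := by
  unfold tch
  refine (MvPolynomial.totalDegree_mul _ _).trans ?_
  rw [MvPolynomial.totalDegree_C, zero_add]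
  exact (scl_totalDegree _ _).trans totalDegree_cut

/-- THE FAR PAST -/
theorem exists_tch (e D : ℕ) : ∃ C : ℝ, 1 ≤ C ∧ ∀ f : MvPolynomial (Fin e) ℝ, f.totalDegree ≤ D → ∀ w B r : ℝ,
    0 ≤ w → 0 < r → r ≤ 1 → (∀ u : Fin e → ℝ, (∀ i, |u i| ≤ 1) → |eval u f| ≤ B) →
    (∀ u : Fin e → ℝ, (∀ i, |u i| ≤ r) → |eval u f| ≤ B * r ^ w) →
      nrm (tch r w f) ≤ C * B ∧ ∀ K : ℝ, 1 ≤ K → ∀ u : Fin e → ℝ, (∀ i, |u i| ≤ K) →
        |r ^ (- w) * eval (fun i => r * u i) f - eval u (tch r w f)| ≤ C * B * K ^ D * r ^ ((⌊w⌋₊ : ℝ) + 1 - w) := by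
  obtain ⟨C, hC1, hC⟩ := exists_coeff_rad e D
  refine ⟨((D : ℝ) + 1) ^ e * C, ?_, fun f hf w B r hw hr hr1 h0 h1 => ?_⟩
  · have : (1 : ℝ) ≤ ((D : ℝ) + 1) ^ e := one_le_pow₀ (by
      have : (0 : ℝ) ≤ D := Nat.cast_nonneg D
      linarith)
    nlinarith
  have hB0 : 0 ≤ B := (abs_nonneg _).trans (h0 0 (fun i => by simp))
  have hcard : ((Fintype.card (Fin e) : ℕ)) = e := Fintype.card_fin e
  refine ⟨?_, fun K hK u hu => ?_⟩
  · have h2 : nrm (tch r w f) ≤ ((D : ℝ) + 1) ^ Fintype.card (Fin e) * (C * B) := by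
      refine nrm_le_of_coeff ((tch_degree_le f).trans hf) (by positivity) fun a => ?_
      unfold tch
      rw [coeff_C_mul, coeff_scl, prod_const_pow, abs_mul, abs_mul, abs_of_pos (Real.rpow_pos_of_pos hr _),
        abs_of_pos (pow_pos hr _)]
      have h3 := hC f hf (B * r ^ w) r hr h1 a
      have h4 : |(cut (fun a => (dgm a : ℝ) ≤ w) f).coeff a| * r ^ dgm a ≤ C * (B * r ^ w) :=
        (mul_le_mul_of_nonneg_right (coeff_cut_le a) (pow_pos hr _).le).trans h3
      calc r ^ (-w) * (|(cut (fun a => (dgm a : ℝ) ≤ w) f).coeff a| * r ^ dgm a) ≤ r ^ (-w) * (C * (B * r ^ w)) :=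
            mul_le_mul_of_nonneg_left h4 (Real.rpow_pos_of_pos hr _).le
        _ = C * B * (r ^ (-w) * r ^ w) := by ring
        _ = C * B := by
            rw [← Real.rpow_add hr, neg_add_cancel, Real.rpow_zero, mul_one]
    rw [hcard] at h2
    calc nrm (tch r w f) ≤ ((D : ℝ) + 1) ^ e * (C * B) := h2
      _ = ((D : ℝ) + 1) ^ e * C * B := by ring
  · set g := cut (fun a => ¬ (dgm a : ℝ) ≤ w) f with hg
    have e1 : r ^ (- w) * eval (fun i => r * u i) f - eval u (tch r w f) = eval u (MvPolynomial.C (r ^ (-w)) * scl (fun _ => r) g) := by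
      unfold tch
      rw [map_mul, map_mul, eval_C, eval_scl, eval_scl, ← mul_sub]
      congr 1
      rw [sub_eq_iff_eq_add', ← map_add, hg, cut_add]
    rw [e1]
    have hgd : (MvPolynomial.C (r ^ (-w)) * scl (fun _ => r) g : MvPolynomial (Fin e) ℝ).totalDegree ≤ D := by
      refine (MvPolynomial.totalDegree_mul _ _).trans ?_
      rw [MvPolynomial.totalDegree_C, zero_add]
      exact (scl_totalDegree _ _).trans (totalDegree_cut.trans hf)
    refine (eval_le_nrm hK hgd (fun i _ => hu i)).trans ?_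
    have hq : 0 < r ^ ((⌊w⌋₊ : ℝ) + 1 - w) := Real.rpow_pos_of_pos hr _
    have h2 : nrm (MvPolynomial.C (r ^ (-w)) * scl (fun _ => r) g : MvPolynomial (Fin e) ℝ) ≤
        ((D : ℝ) + 1) ^ Fintype.card (Fin e) * (C * B * r ^ ((⌊w⌋₊ : ℝ) + 1 - w)) := by
      refine nrm_le_of_coeff hgd (by positivity) fun a => ?_
      by_cases ha : (dgm a : ℝ) ≤ w
      · rw [coeff_C_mul, coeff_scl, hg, coeff_cut_neg (p := fun a => ¬ (dgm a : ℝ) ≤ w) (not_not.2 ha), zero_mul, mul_zero,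
          abs_zero]
        positivity
      · rw [coeff_C_mul, coeff_scl, prod_const_pow, abs_mul, abs_mul, abs_of_pos (Real.rpow_pos_of_pos hr _),
          abs_of_pos (pow_pos hr _), hg, coeff_cut_pos (p := fun a => ¬ (dgm a : ℝ) ≤ w) ha]
        have h3 := hC f hf B 1 one_pos h0 a
        rw [one_pow, mul_one] at h3
        have h4 : r ^ (-w) * r ^ dgm a ≤ r ^ ((⌊w⌋₊ : ℝ) + 1 - w) := by
          rw [← Real.rpow_natCast, ← Real.rpow_add hr]
          apply Real.rpow_le_rpow_of_exponent_ge hr hr1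
          have h5 : ⌊w⌋₊ < dgm a := (Nat.floor_lt hw).2 (not_le.1 ha)
          have h6 : ((⌊w⌋₊ + 1 : ℕ) : ℝ) ≤ (dgm a : ℝ) := by exact_mod_cast h5
          push_cast at h6
          linarith
        calc r ^ (-w) * (|f.coeff a| * r ^ dgm a) = |f.coeff a| * (r ^ (-w) * r ^ dgm a) := by ring
          _ ≤ (C * B) * r ^ ((⌊w⌋₊ : ℝ) + 1 - w) := mul_le_mul h3 h4 (by positivity) (by positivity)
    rw [hcard] at h2
    calc nrm (MvPolynomial.C (r ^ (-w)) * scl (fun _ => r) g : MvPolynomial (Fin e) ℝ) * K ^ D ≤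
        ((D : ℝ) + 1) ^ e * (C * B * r ^ ((⌊w⌋₊ : ℝ) + 1 - w)) * K ^ D :=
          mul_le_mul_of_nonneg_right h2 (by positivity)
      _ = ((D : ℝ) + 1) ^ e * C * B * K ^ D * r ^ ((⌊w⌋₊ : ℝ) + 1 - w) := by ring

end Pool.Agent.Helper77.WDG
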