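import Pool.Agent.Helper7.GZ.Zm
import Pool.Agent.Helper77.WDG.Far

/-! ZOOM IN THE COORDINATES OF ROWS WITH APPROXIMATE CHARTS: any polynomials of degree at most `κx` which are known to the
window of the type, which are typically tame and which typically contain the point up to `2 ^ (-u n)`, may be taken as the
charts of the zoom. -/

set_option autoImplicit false

namespace Pool.Agent.Helper77.WDG

open Finset Filter Topology Matrix Pool.Agent.Helper69.RK Pool.Agent.Helper31.EC Pool.Agent.Helper31.EC.Sp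
open Pool.Agent.Helper40.EL Pool.Agent.Helper89.LX Pool.Agent.Helper3.LF Pool.Agent.Helper84.MT
open Pool.Agent.Helper89.TAY (crn)
open Pool.Agent.Helper7.GZ
open Pool.Agent.Helper36.AM (Frm Gz volO)

noncomputable section

variable {S : Sp} {M M' : ℕ} {E : ℕ → ℕ} {ι : Type}

/-- APPROXIMATE CHARTS of a zoom in the coordinates of rows -/
structure AC {s : MSys S M E ι} (z : RZ s M') (κx : ℕ) where
  hκ1 : 1 ≤ κx
  he : ∀ i, (s.lf i).e ≤ κx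
  G : ∀ i k, (z.Z.l k).T.Ω → Fin M' → MvPolynomial (Fin (s.lf i).e) ℝ
  deg : ∀ i k ω j, (G i k ω j).totalDegree ≤ κx
  fn : ∀ i, ∀ᶠ k in UF, ∀ ω ω', (z.Z.l k).T.μ ω ≠ 0 → (z.Z.l k).T.μ ω' ≠ 0 → (z.Z.l k).T.Z ω ω' →
    (z.Z.l k).V ω ω' → (z.Z.zLa (s.lf i) k) ω ω' → G i k ω = G i k ω'
  bound : ∀ i, ∃ K : ℕ → ℝ, S.Sub K ∧ Typ (S := z.Z.sp) (fun k (ω : (z.Z.l k).T.Ω) =>
    (∀ j a, |(G i k ω j).coeff a| ≤ K k) ∧ ∀ j,
      |z.X.v k ω j - MvPolynomial.eval ((z.Z.fr (s.lf i).Y).v k ω) (G i k ω j)| ≤ K k * z.Z.sp.dl 1 k)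

namespace AC

variable {s : MSys S M E ι} {z : RZ s M'} {κx : ℕ} (x : AC z κx)

/-- the bound -/
def K (i : ι) : ℕ → ℝ := (x.bound i).choose

/-- the event -/
def A (i : ι) (k : ℕ) (ω : (z.Z.sp.F k).Ω) : Prop := (∀ j a, |(x.G i k ω j).coeff a| ≤ x.K i k) ∧ ∀ j,
      |z.X.v k ω j - MvPolynomial.eval ((z.Z.fr (s.lf i).Y).v k ω) (x.G i k ω j)| ≤ x.K i k * z.Z.sp.dl 1 k

theorem A_typ (i : ι) : Typ (S := z.Z.sp) (x.A i) := (x.bound i).choose_spec.2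

theorem A_pt (i : ι) : ∃ K : ℕ → ℝ, z.Z.sp.Sub K ∧ ∀ᶠ k in UF, ∀ ω, (z.Z.sp.F k).μ ω ≠ 0 → x.A i k ω →
    (∀ j a, |(x.G i k ω j).coeff a| ≤ K k) ∧
      ∀ j, |z.X.v k ω j - MvPolynomial.eval ((z.Z.fr (s.lf i).Y).v k ω) (x.G i k ω j)| ≤ K k * z.Z.sp.dl 1 k :=
  ⟨x.K i, z.Z.Sub_sp.1 (x.bound i).choose_spec.1, Eventually.of_forall fun _ _ _ h => h⟩

theorem fn' (i : ι) : ∀ᶠ k in UF, ∀ ω ω', (z.Z.sp.F k).μ ω ≠ 0 → (z.Z.sp.F k).μ ω' ≠ 0 → (z.Z.sp.F k).Z ω ω' →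
    (z.Z.zLa (s.lf i) k) ω ω' → x.G i k ω = x.G i k ω' := by
  filter_upwards [x.fn i] with k hk ω ω' a b g r
  obtain ⟨g1, g2, -⟩ := z.Z.hZ k ω ω' a b g
  exact hk ω ω' a b g2 g1 r

/-- THE ZOOM WITH APPROXIMATE CHARTS -/
def sys : MSys z.Z.sp M' (lin κx) ι where
  Q := z.X
  lf := fun i => ofPolyT κx x.hκ1 (s.lf i).e (x.he i) (z.Z.zLa (s.lf i)) (z.Z.fr (s.lf i).Y) (x.G i) (x.deg i)
    (x.fn' i) (x.A i) (x.A_typ i) (x.A_pt i) (z.Z.zfull (s.lf i) (z.dm (some i)))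

theorem sys_Q : x.sys.Q = z.X := rfl

theorem sys_e (i : ι) : (x.sys.lf i).e = (s.lf i).e := rfl

theorem sys_Y (i : ι) : (x.sys.lf i).Y = z.Z.fr (s.lf i).Y := rfl

open Classical in
theorem sys_F (i : ι) (k : ℕ) (ω : (z.Z.sp.F k).Ω) (y : Fin (s.lf i).e → ℝ) (j : Fin M') :
    (x.sys.lf i).F k ω y j = MvPolynomial.eval y (if x.A i k ω then x.G i k ω j else
      MvPolynomial.C (rnd (z.Z.sp.dl 1 k) (z.X.v k ω j))) := rfl

/-- windows -/
theorem win_le (i : ι) {b : ℝ} (hb : 0 ≤ b) :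
    PLe ((x.sys.lf i).win b) (z.upz ((s.lf i).win (z.Z.c + z.Z.u * b))) :=
  PLe.trans (S := z.Z.sp) (ofPolyT_win_le (S := z.Z.sp) κx x.hκ1 (s.lf i).e (x.he i) (z.Z.zLa (s.lf i))
    (z.Z.fr (s.lf i).Y) (x.G i) (x.deg i) (x.fn' i) (x.A i) (x.A_typ i) (x.A_pt i)
    (z.Z.zfull (s.lf i) (z.dm (some i))) b) (z.Z.win_up (s.lf i) hb)

theorem win_ge (i : ι) (b : ℝ) :
    PLe (z.upz ((s.lf i).win (z.Z.c + z.Z.u * b))) ((x.sys.lf i).win b) :=
  PLe.trans (S := z.Z.sp) (z.Z.up_win (s.lf i) b) (ofPolyT_win_ge (S := z.Z.sp) κx x.hκ1 (s.lf i).e (x.he i)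
    (z.Z.zLa (s.lf i)) (z.Z.fr (s.lf i).Y) (x.G i) (x.deg i) (x.fn' i) (x.A i) (x.A_typ i) (x.A_pt i)
    (z.Z.zfull (s.lf i) (z.dm (some i))) b)

/-- the zoom with approximate charts is equivalent to the zoom -/
theorem eqv {b : ℝ} (hb : 0 ≤ b) : Eqv z.sys x.sys b where
  pt := rfl
  le := fun i => by
    rcases i with _ | i
    · exact PLe.refl _
    · exact (x.win_le i hb).trans (z.win_ge i b)
  ge := fun i => by
    rcases i with _ | i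
    · exact PLe.refl _
    · exact (z.win_le i hb).trans (x.win_ge i b)

theorem gz {s : MSys S M E ι} {z : RZ s M} {κx : ℕ} (x : AC z κx) (X : z.Z.l.sp.VV M)
    (hX : ∀ k ω j, z.X.v k ω j = X.v k ω j) : Gz s z.Z.l z.Z.c z.Z.u z.Z.hu X x.sys where
  pt := by
    refine ⟨fun _ => 0, S.Sub_const le_rfl, Eventually.of_forall fun k ω _ j => ?_⟩
    have h1 : x.sys.Q.v k ω j = X.v k ω j := hX k ω j
    rw [h1, sub_self, abs_zero, zero_mul]
  win := fun b i hb _ => ⟨x.win_le i hb, x.win_ge i b⟩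

/-- weighted degrees -/
theorem wdeg {w : Fin M' → ℝ} (hw : ∀ j, 0 ≤ w j) (hd : ∀ i k ω j, ((x.G i k ω j).totalDegree : ℝ) ≤ w j) :
    WDeg x.sys w := by
  classical
  intro i
  refine ⟨fun k ω j => if x.A i k ω then x.G i k ω j else
      MvPolynomial.C (rnd (z.Z.sp.dl 1 k) (z.X.v k ω j)), Eventually.of_forall fun k ω _ y j => ?_,
      fun k ω j => ?_⟩
  · exact x.sys_F i k ω y j
  · show ((if x.A i k ω then x.G i k ω j else
      MvPolynomial.C (rnd (z.Z.sp.dl 1 k) (z.X.v k ω j)) : MvPolynomial _ ℝ).totalDegree : ℝ) ≤ w j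
    split_ifs
    · exact hd i k ω j
    · rw [MvPolynomial.totalDegree_C, Nat.cast_zero]
      exact hw j

end AC

/-! ### truncation of exact charts -/

/-- exact charts whose coefficients of degree more than `w j` are at most `2 ^ (-u n)` may be truncated -/
theorem exists_ac {s : MSys S M E ι} {z : RZ s M'} (x : XC z) {w : Fin M' → ℝ} (hw : ∀ j, 0 ≤ w j) {g : ℕ} (hg : 1 ≤ g)
    (hdim : ∀ i, (s.lf i).e ≤ g) (hwg : ∀ j, w j ≤ g)
    (hc : ∀ i, ∃ K : ℕ → ℝ, S.Sub K ∧ ∀ᶠ k in UF, ∀ ω, (z.Z.l k).T.μ ω ≠ 0 → ∀ j a, w j < (dgm a : ℝ) →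
      |(x.G i k ω j).coeff a| ≤ K k * S.dl z.Z.u k) :
    ∃ y : AC z g, ∀ i k ω j, ((y.G i k ω j).totalDegree : ℝ) ≤ w j := by
  classical
  have hdeg : ∀ i k ω j, ((cut (fun a => (dgm a : ℝ) ≤ w j) (x.G i k ω j)).totalDegree : ℝ) ≤ w j := by
    intro i k ω j
    have h1 : (cut (fun a => (dgm a : ℝ) ≤ w j) (x.G i k ω j)).totalDegree ≤ ⌊w j⌋₊ := by
      apply Finset.sup_le
      intro a ha
      exact Nat.le_floor (mem_support_cut ha)
    calc ((cut (fun a => (dgm a : ℝ) ≤ w j) (x.G i k ω j)).totalDegree : ℝ) ≤ (⌊w j⌋₊ : ℝ) := by exact_mod_cast h1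
      _ ≤ w j := Nat.floor_le (hw j)
  refine ⟨{
    hκ1 := hg
    he := hdim
    G := fun i k ω j => cut (fun a => (dgm a : ℝ) ≤ w j) (x.G i k ω j)
    deg := fun i k ω j => by
      have h1 := (hdeg i k ω j).trans (hwg j)
      exact_mod_cast h1
    fn := fun i => by
      filter_upwards [x.fn i] with k hk ω ω' a b z v r
      funext j
      show cut (fun a => (dgm a : ℝ) ≤ w j) (x.G i k ω j) = cut (fun a => (dgm a : ℝ) ≤ w j) (x.G i k ω' j)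
      rw [hk ω ω' a b z v r]
    bound := fun i => ?_ }, fun i k ω j => hdeg i k ω j⟩
  obtain ⟨K, hK, hT⟩ := x.bound i
  obtain ⟨L, hL, hl⟩ := hc i
  refine ⟨fun k => K k + ((x.κx : ℝ) + 1) ^ (s.lf i).e * L k, hK.add ((S.Sub_const (by positivity)).mul hL), ?_⟩
  refine Typ.mono (S := z.Z.sp) hT ?_
  filter_upwards [hl, hK.1, hL.1] with k h1 hK0 hL0
  intro (ω : (z.Z.l k).T.Ω) hω h
  obtain ⟨h2, h3⟩ := h
  have hP0 : 0 ≤ ((x.κx : ℝ) + 1) ^ (s.lf i).e * L k := by positivity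
  constructor
  · intro j a
    refine (coeff_cut_le a).trans ((h2 j a).trans ?_)
    linarith
  · intro j
    have h4 := h3 j
    rw [z.Z.sp_dl1] at h4 ⊢
    have hfr : ∀ a, |(z.Z.fr (s.lf i).Y).v k ω a| ≤ 1 := fun a => by
      rw [z.Z.fr_v, abs_le]
      constructor <;> linarith [Int.floor_le ((s.lf i).Y.v k ((z.Z.l k).p.π ω) a / S.dl z.Z.c k),
        Int.lt_floor_add_one ((s.lf i).Y.v k ((z.Z.l k).p.π ω) a / S.dl z.Z.c k)]
    have h5 : |MvPolynomial.eval ((z.Z.fr (s.lf i).Y).v k ω) (cut (fun a => ¬ (dgm a : ℝ) ≤ w j) (x.G i k ω j))| ≤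
        ((x.κx : ℝ) + 1) ^ (s.lf i).e * (L k * S.dl z.Z.u k) * 1 ^ x.κx :=
      Pool.Agent.Helper81.MI.eval_le _ (totalDegree_cut.trans (x.deg i k ω j)) _ 1 (L k * S.dl z.Z.u k) le_rfl
        (mul_nonneg hL0 (S.dl_pos _ _).le) hfr (fun a => by
          by_cases ha : (dgm a : ℝ) ≤ w j
          · rw [coeff_cut_neg (p := fun a => ¬ (dgm a : ℝ) ≤ w j) (not_not.2 ha), abs_zero]
            exact mul_nonneg hL0 (S.dl_pos _ _).le
          · rw [coeff_cut_pos (p := fun a => ¬ (dgm a : ℝ) ≤ w j) ha]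
            exact h1 ω hω j a (not_le.1 ha))
    have e1 : MvPolynomial.eval ((z.Z.fr (s.lf i).Y).v k ω) (cut (fun a => (dgm a : ℝ) ≤ w j) (x.G i k ω j)) =
        MvPolynomial.eval ((z.Z.fr (s.lf i).Y).v k ω) (x.G i k ω j) -
          MvPolynomial.eval ((z.Z.fr (s.lf i).Y).v k ω) (cut (fun a => ¬ (dgm a : ℝ) ≤ w j) (x.G i k ω j)) := by
      rw [eq_sub_iff_add_eq, ← map_add, cut_add]
    rw [e1]
    have e2 : z.X.v k ω j - (MvPolynomial.eval ((z.Z.fr (s.lf i).Y).v k ω) (x.G i k ω j) -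
          MvPolynomial.eval ((z.Z.fr (s.lf i).Y).v k ω) (cut (fun a => ¬ (dgm a : ℝ) ≤ w j) (x.G i k ω j))) =
        (z.X.v k ω j - MvPolynomial.eval ((z.Z.fr (s.lf i).Y).v k ω) (x.G i k ω j)) +
          MvPolynomial.eval ((z.Z.fr (s.lf i).Y).v k ω) (cut (fun a => ¬ (dgm a : ℝ) ≤ w j) (x.G i k ω j)) := by ring
    rw [e2]
    refine (abs_add_le _ _).trans ?_
    rw [add_mul]
    refine add_le_add h4 (h5.trans (le_of_eq ?_))
    rw [one_pow, mul_one, mul_assoc]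

end

end Pool.Agent.Helper77.WDG
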