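import Pool.Agent.Helper77.WDG.Nrm

/-! SCALING of the variables; parts of a polynomial; REDUCTION of a triangular map: `tm P = tm P' ∘ (tm S)⁻¹`, `P'_j` of
weighted degree less than `w j`, `S_j` with monomials of weight at least `w j`; the change of the scaled coordinates is
tame. -/

set_option autoImplicit false

namespace Pool.Agent.Helper77.WDG

open MvPolynomial Finset

/-! ### scaling -/

section scl

variable {σ : Type*} {R : Type*} [CommRing R] {d d' : σ → R} {P : MvPolynomial σ R}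

/-- scaling of the variables -/
noncomputable def scl (d : σ → R) (P : MvPolynomial σ R) : MvPolynomial σ R := bind₁ (fun i => C (d i) * X i) P

theorem scl_monomial (d : σ → R) (b : σ →₀ ℕ) (c : R) :
    scl d (monomial b c) = monomial b (c * ∏ i ∈ b.support, d i ^ b i) := by
  unfold scl
  rw [bind₁_monomial]
  have h1 : ∏ i ∈ b.support, (C (d i) * X i : MvPolynomial σ R) ^ b i =
      C (∏ i ∈ b.support, d i ^ b i) * ∏ i ∈ b.support, X i ^ b i := by
    rw [map_prod, ← Finset.prod_mul_distrib]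
    refine Finset.prod_congr rfl fun i _ => ?_
    rw [mul_pow, map_pow]
  rw [h1, ← mul_assoc, ← map_mul, MvPolynomial.monomial_eq]
  rfl

theorem coeff_scl (d : σ → R) (P : MvPolynomial σ R) (a : σ →₀ ℕ) :
    (scl d P).coeff a = P.coeff a * ∏ i ∈ a.support, d i ^ a i := by
  classical
  have h1 : scl d P = ∑ b ∈ P.support, monomial b (P.coeff b * ∏ i ∈ b.support, d i ^ b i) := by
    conv_lhs => rw [P.as_sum]
    unfold scl
    rw [map_sum]
    exact Finset.sum_congr rfl fun b _ => scl_monomial d b _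
  rw [h1, MvPolynomial.coeff_sum]
  simp only [MvPolynomial.coeff_monomial]
  rw [Finset.sum_ite_eq']
  split_ifs with h
  · rfl
  · rw [MvPolynomial.notMem_support_iff.1 h, zero_mul]

theorem eval_scl (u : σ → R) (P : MvPolynomial σ R) : eval u (scl d P) = eval (fun i => d i * u i) P := by
  unfold scl
  rw [eval_bind]
  congr 1
  refine congrArg _ (funext fun i => ?_)
  rw [map_mul, eval_C, eval_X]

theorem scl_totalDegree (d : σ → R) (P : MvPolynomial σ R) : (scl d P).totalDegree ≤ P.totalDegree := by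
  apply Finset.sup_le
  intro a ha
  refine MvPolynomial.le_totalDegree ?_
  rw [MvPolynomial.mem_support_iff] at ha ⊢
  intro h
  apply ha
  rw [coeff_scl, h, zero_mul]

theorem scl_support (d : σ → R) (P : MvPolynomial σ R) : (scl d P).support ⊆ P.support := by
  intro a ha
  rw [MvPolynomial.mem_support_iff] at ha ⊢
  intro h
  apply ha
  rw [coeff_scl, h, zero_mul]

theorem vars_subset_of_support {P Q : MvPolynomial σ R} (h : P.support ⊆ Q.support) : P.vars ⊆ Q.vars := by
  intro i hi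
  rw [MvPolynomial.mem_vars_iff_mem_support] at hi ⊢
  obtain ⟨a, ha, h1⟩ := hi
  exact ⟨a, h ha, h1⟩

end scl

/-- powers of `q`: the weight -/
theorem prod_rpow {σ : Type*} [Fintype σ] {q : ℝ} (hq : 0 < q) (w : σ → ℝ) (a : σ →₀ ℕ) :
    ∏ i ∈ a.support, (q ^ w i) ^ a i = q ^ wt w a := by
  have h1 : ∏ i ∈ a.support, (q ^ w i) ^ a i = ∏ i, (q ^ w i) ^ a i := by
    refine Finset.prod_subset (Finset.subset_univ _) fun i _ hi => ?_
    rw [Finsupp.notMem_support_iff.1 hi, pow_zero]
  rw [h1]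
  unfold wt
  rw [Real.rpow_sum_of_pos hq]
  refine Finset.prod_congr rfl fun i _ => ?_
  rw [← Real.rpow_natCast, ← Real.rpow_mul hq.le, mul_comm]

/-! ### parts -/

section cut

variable {σ : Type*} {R : Type*} [CommRing R] {p : (σ →₀ ℕ) → Prop} {P : MvPolynomial σ R}

/-- the part with the monomials in `p` -/
noncomputable def cut (p : (σ →₀ ℕ) → Prop) (P : MvPolynomial σ R) : MvPolynomial σ R := by
  classical exact ∑ a ∈ P.support.filter p, monomial a (P.coeff a)

theorem coeff_cut_pos {a : σ →₀ ℕ} (h : p a) : (cut p P).coeff a = P.coeff a := by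
  classical
  unfold cut
  rw [MvPolynomial.coeff_sum]
  simp only [MvPolynomial.coeff_monomial]
  rw [Finset.sum_ite_eq']
  by_cases h1 : a ∈ P.support
  · rw [if_pos (Finset.mem_filter.2 ⟨h1, h⟩)]
  · rw [if_neg (fun h2 => h1 (Finset.mem_filter.1 h2).1), MvPolynomial.notMem_support_iff.1 h1]

theorem coeff_cut_neg {a : σ →₀ ℕ} (h : ¬ p a) : (cut p P).coeff a = 0 := by
  classical
  unfold cut
  rw [MvPolynomial.coeff_sum]
  simp only [MvPolynomial.coeff_monomial]
  rw [Finset.sum_ite_eq', if_neg (fun h2 => h (Finset.mem_filter.1 h2).2)]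

theorem cut_add (p : (σ →₀ ℕ) → Prop) (P : MvPolynomial σ R) : cut p P + cut (fun a => ¬ p a) P = P := by
  ext a
  rw [MvPolynomial.coeff_add]
  by_cases h : p a
  · rw [coeff_cut_pos h, coeff_cut_neg (p := fun a => ¬ p a) (not_not.2 h), add_zero]
  · rw [coeff_cut_neg h, coeff_cut_pos (p := fun a => ¬ p a) h, zero_add]

theorem mem_support_cut {a : σ →₀ ℕ} (h : a ∈ (cut p P).support) : p a := by
  by_contra h1
  rw [MvPolynomial.mem_support_iff] at h
  exact h (coeff_cut_neg h1)

theorem support_cut : (cut p P).support ⊆ P.support := by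
  intro a h
  have h1 := mem_support_cut h
  rw [MvPolynomial.mem_support_iff] at h ⊢
  rwa [coeff_cut_pos h1] at h

theorem vars_cut : (cut p P).vars ⊆ P.vars := vars_subset_of_support support_cut

theorem totalDegree_cut : (cut p P).totalDegree ≤ P.totalDegree := by
  apply Finset.sup_le
  intro a ha
  exact MvPolynomial.le_totalDegree (support_cut ha)

end cut

theorem nrm_cut {σ : Type*} {p : (σ →₀ ℕ) → Prop} {P : MvPolynomial σ ℝ} : nrm (cut p P) ≤ nrm P := by
  have h1 : nrm (cut p P) = ∑ a ∈ (cut p P).support, |P.coeff a| := by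
    unfold nrm
    exact Finset.sum_congr rfl fun a ha => by rw [coeff_cut_pos (mem_support_cut ha)]
  rw [h1]
  exact Finset.sum_le_sum_of_subset_of_nonneg support_cut fun _ _ _ => abs_nonneg _

theorem coeff_cut_le {σ : Type*} {p : (σ →₀ ℕ) → Prop} {P : MvPolynomial σ ℝ} (a : σ →₀ ℕ) :
    |(cut p P).coeff a| ≤ |P.coeff a| := by
  by_cases h : p a
  · rw [coeff_cut_pos h]
  · rw [coeff_cut_neg h, abs_zero]
    exact abs_nonneg _

/-- a finite set of weights below `d` stays away from `d` -/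
theorem wLt_of_support {σ : Type*} [Fintype σ] {R : Type*} [CommRing R] {w : σ → ℝ} {d : ℝ} {P : MvPolynomial σ R}
    (h : ∀ a ∈ P.support, wt w a < d) : WLt w d P := by
  classical
  by_cases hP : P.support.Nonempty
  · obtain ⟨b, hb, hmax⟩ := P.support.exists_max_image (wt w) hP
    exact ⟨wt w b, h b hb, fun a ha => hmax a ha⟩
  · rw [Finset.not_nonempty_iff_eq_empty] at hP
    refine ⟨d - 1, by linarith, fun a ha => ?_⟩
    rw [hP] at ha
    simp at ha

/-! ### weights at least -/

section wge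

variable {σ τ : Type*} [Fintype σ] [Fintype τ] {R : Type*} [CommRing R] {w : σ → ℝ} {v : τ → ℝ} {d : ℝ}
  {P Q : MvPolynomial σ R}

/-- all monomials have weight at least `d` -/
def WGe (w : σ → ℝ) (d : ℝ) (P : MvPolynomial σ R) : Prop := ∀ a ∈ P.support, d ≤ wt w a

theorem wt_neg (w : σ → ℝ) (a : σ →₀ ℕ) : wt (fun i => - w i) a = - wt w a := by
  unfold wt
  rw [← Finset.sum_neg_distrib]
  exact Finset.sum_congr rfl fun i _ => by ring

theorem wGe_iff : WGe w d P ↔ WLe (fun i => - w i) (- d) P := by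
  unfold WGe WLe
  refine forall_congr' fun a => forall_congr' fun _ => ?_
  rw [wt_neg, neg_le_neg_iff]

theorem WGe.bind (h : WGe w d P) (H : σ → MvPolynomial τ R) (hH : ∀ i ∈ P.vars, WGe v (w i) (H i)) :
    WGe v d (bind₁ H P) := by
  rw [wGe_iff] at h ⊢
  exact h.bind H fun i hi => wGe_iff.1 (hH i hi)

theorem WGe.add (h1 : WGe w d P) (h2 : WGe w d Q) : WGe w d (P + Q) := by
  rw [wGe_iff] at h1 h2 ⊢
  exact h1.add h2

theorem WGe.neg (h : WGe w d P) : WGe w d (-P) := by
  rw [wGe_iff] at h ⊢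
  exact h.neg

theorem WGe.sub (h1 : WGe w d P) (h2 : WGe w d Q) : WGe w d (P - Q) := by
  rw [sub_eq_add_neg]
  exact h1.add h2.neg

theorem WGe.X {i : σ} (hd : d ≤ w i) : WGe w d (MvPolynomial.X i : MvPolynomial σ R) := by
  rw [wGe_iff]
  exact WLe.X (w := fun i => - w i) (by linarith)

end wge

/-! ### reduction -/

section red

variable {M : ℕ} {R : Type*} [CommRing R] {w : Fin M → ℝ} {P : Fin M → MvPolynomial (Fin M) R}

/-- the change of the coordinates in the reduction -/
noncomputable def rdS (w : Fin M → ℝ) (P : Fin M → MvPolynomial (Fin M) R) (j : Fin M) : MvPolynomial (Fin M) R :=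
  - cut (fun a => ¬ wt w a < w j) (bind₁ (fun i => if _h : i < j then X i + rdS w P i else 0) (P j))
termination_by j.val
decreasing_by exact _h

/-- the reduced map -/
noncomputable def rdP (w : Fin M → ℝ) (P : Fin M → MvPolynomial (Fin M) R) (j : Fin M) : MvPolynomial (Fin M) R :=
  cut (fun a => wt w a < w j) (bind₁ (tm (rdS w P)) (P j))

theorem rdS_eq (hP : Tri P) (j : Fin M) :
    rdS w P j = - cut (fun a => ¬ wt w a < w j) (bind₁ (tm (rdS w P)) (P j)) := by
  conv_lhs => rw [rdS]
  congr 2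
  refine bind_congr fun i hi => ?_
  rw [dif_pos (hP j i hi)]
  rfl

/-- the reduced map is the original one after a change of the coordinates -/
theorem bind_rdS (hP : Tri P) (j : Fin M) : bind₁ (tm (rdS w P)) (tm P j) = tm (rdP w P) j := by
  have h := cut_add (fun a => wt w a < w j) (bind₁ (tm (rdS w P)) (P j))
  have h1 : tm (rdS w P) j = X j + rdS w P j := rfl
  have h2 : tm (rdP w P) j = X j + cut (fun a => wt w a < w j) (bind₁ (tm (rdS w P)) (P j)) := rfl
  rw [bind_tm, h1, h2, add_assoc]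
  congr 1
  have h3 := rdS_eq (w := w) hP j
  generalize hA : bind₁ (tm (rdS w P)) (P j) = A at h h3 ⊢
  rw [h3]
  exact neg_add_eq_of_eq_add (by rw [add_comm]; exact h.symm)

theorem vars_tm_bind_lt {F : Fin M → MvPolynomial (Fin M) R} (hF : Tri P) {j : Fin M}
    (hS : ∀ i < j, ∀ l ∈ (F i).vars, l < i) : ∀ i ∈ (bind₁ (tm F) (P j)).vars, i < j := by
  classical
  intro i hi
  have h2 := MvPolynomial.vars_bind₁ _ _ hi
  rw [Finset.mem_biUnion] at h2
  obtain ⟨l, hl, h3⟩ := h2
  have hlj := hF j l hl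
  rcases Finset.mem_union.1 (MvPolynomial.vars_add_subset _ _ h3) with h5 | h5
  · have h6 : (X l : MvPolynomial (Fin M) R).vars ⊆ {l} := by
      by_cases hR : Nontrivial R
      · rw [MvPolynomial.vars_X]
      · rw [not_nontrivial_iff_subsingleton] at hR
        have : (X l : MvPolynomial (Fin M) R) = 0 := Subsingleton.elim _ _
        rw [this, MvPolynomial.vars_0]
        exact Finset.empty_subset _
    have h7 := h6 h5
    rw [Finset.mem_singleton] at h7
    rw [h7]
    exact hlj
  · exact (hS l hlj i h5).trans hlj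

theorem tri_rdS (hP : Tri P) : Tri (rdS w P) := by
  have key : ∀ n : ℕ, ∀ j : Fin M, j.val = n → ∀ i ∈ (rdS w P j).vars, i < j := by
    intro n
    induction n using Nat.strong_induction_on with
    | _ n ih =>
      intro j hj i hi
      rw [rdS_eq hP j, MvPolynomial.vars_neg] at hi
      refine vars_tm_bind_lt hP (F := rdS w P) (fun l hl => ?_) i (vars_cut hi)
      have hl' : l.val < n := by
        rw [← hj]
        exact hl
      exact ih l.val hl' l rfl
  intro j
  exact key j.val j rfl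

theorem triW_rdP (hP : Tri P) : TriW w (rdP w P) := by
  refine ⟨fun j i hi => ?_, fun j => wLt_of_support fun a ha => mem_support_cut ha⟩
  exact vars_tm_bind_lt hP (F := rdS w P) (fun l _ => tri_rdS hP l) i (vars_cut hi)

theorem wGe_rdS (hP : Tri P) (j : Fin M) : WGe w (w j) (rdS w P j) := by
  rw [rdS_eq hP j]
  exact WGe.neg fun a ha => not_lt.1 (mem_support_cut ha)

theorem wGe_slv {F : Fin M → MvPolynomial (Fin M) R} (hF : Tri F) (h : ∀ j, WGe w (w j) (F j)) {τ : Type*} [Fintype τ]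
    {v : τ → ℝ} {G : Fin M → MvPolynomial τ R} (hG : ∀ j, WGe v (w j) (G j)) (j : Fin M) :
    WGe v (w j) (slv F G j) := by
  have key : ∀ n : ℕ, ∀ j : Fin M, j.val = n → WGe v (w j) (slv F G j) := by
    intro n
    induction n using Nat.strong_induction_on with
    | _ n ih =>
      intro j hj
      rw [slv_eq hF G j]
      refine (hG j).sub ((h j).bind _ fun i hi => ?_)
      have h2 : i < j := hF j i hi
      exact ih i.val (by rw [← hj]; exact h2) i rfl
  exact key j.val j rfl

theorem wGe_inv {F : Fin M → MvPolynomial (Fin M) R} (hF : Tri F) (h : ∀ j, WGe w (w j) (F j)) (j : Fin M) :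
    WGe w (w j) (inv F j) := by
  unfold inv
  refine WGe.neg ((h j).bind _ fun i _ => wGe_slv hF h (fun l => WGe.X le_rfl) i)

end red

section redR

variable {M : ℕ} {w : Fin M → ℝ} {P : Fin M → MvPolynomial (Fin M) ℝ}

theorem nrm_rdS {B : ℝ} (hB : 1 ≤ B) {D : ℕ} (hP : Tri P) (hD : ∀ j, (P j).totalDegree ≤ D) (hn : ∀ j, nrm (P j) ≤ B)
    (j : Fin M) : 1 + nrm (rdS w P j) ≤ (2 * B) ^ ((D + 1) ^ (j.val + 1)) := by
  have hB2 : (1 : ℝ) ≤ 2 * B := by linarith
  have key : ∀ n : ℕ, ∀ j : Fin M, j.val = n → 1 + nrm (rdS w P j) ≤ (2 * B) ^ ((D + 1) ^ (n + 1)) := by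
    intro n
    induction n using Nat.strong_induction_on with
    | _ n ih =>
      intro j hj
      rw [rdS_eq hP j, nrm_neg]
      have h1 : nrm (bind₁ (tm (rdS w P)) (P j)) ≤ nrm (P j) * ((2 * B) ^ ((D + 1) ^ n)) ^ D := by
        refine nrm_bind_le (one_le_pow₀ hB2) (hD j) _ fun i hi => ?_
        have h2 : i < j := hP j i hi
        have h2' : i.val < n := by
          rw [← hj]
          exact h2
        have h3 : nrm (tm (rdS w P) i) ≤ 1 + nrm (rdS w P i) := by
          unfold tm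
          refine (nrm_add_le _ _).trans ?_
          rw [nrm_X]
        refine h3.trans ((ih i.val h2' i rfl).trans ?_)
        exact pow_le_pow_right₀ hB2 (Nat.pow_le_pow_right (Nat.succ_pos D) h2')
      have h2 : nrm (cut (fun a => ¬ wt w a < w j) (bind₁ (tm (rdS w P)) (P j))) ≤ B * ((2 * B) ^ ((D + 1) ^ n)) ^ D :=
        (nrm_cut.trans h1).trans (mul_le_mul_of_nonneg_right (hn j) (by positivity))
      have h3 : (1 : ℝ) ≤ ((2 * B) ^ ((D + 1) ^ n)) ^ D := one_le_pow₀ (one_le_pow₀ hB2)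
      have h4 : (1 : ℝ) ≤ B * ((2 * B) ^ ((D + 1) ^ n)) ^ D := by nlinarith
      calc 1 + nrm (cut (fun a => ¬ wt w a < w j) (bind₁ (tm (rdS w P)) (P j)))
          ≤ (2 * B) * ((2 * B) ^ ((D + 1) ^ n)) ^ D := by linarith
        _ = (2 * B) ^ (1 + (D + 1) ^ n * D) := by rw [pow_add, pow_one, pow_mul]
        _ ≤ (2 * B) ^ ((D + 1) ^ (n + 1)) := by
            refine pow_le_pow_right₀ hB2 ?_
            have h6 : 1 ≤ (D + 1) ^ n := Nat.one_le_pow _ _ (Nat.succ_pos D)
            calc 1 + (D + 1) ^ n * D ≤ (D + 1) ^ n + (D + 1) ^ n * D := Nat.add_le_add_right h6 _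
              _ = (D + 1) ^ (n + 1) := by ring
  exact key j.val j rfl

theorem nrm_rdP {B : ℝ} (hB : 1 ≤ B) {D : ℕ} (hP : Tri P) (hD : ∀ j, (P j).totalDegree ≤ D) (hn : ∀ j, nrm (P j) ≤ B)
    (j : Fin M) : nrm (rdP w P j) ≤ (2 * B) ^ ((D + 1) ^ (j.val + 1)) := by
  have hB2 : (1 : ℝ) ≤ 2 * B := by linarith
  have h1 : nrm (bind₁ (tm (rdS w P)) (P j)) ≤ nrm (P j) * ((2 * B) ^ ((D + 1) ^ j.val)) ^ D := by
    refine nrm_bind_le (one_le_pow₀ hB2) (hD j) _ fun i hi => ?_
    have h2' : i.val < j.val := hP j i hi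
    have h3 : nrm (tm (rdS w P) i) ≤ 1 + nrm (rdS w P i) := by
      unfold tm
      refine (nrm_add_le _ _).trans ?_
      rw [nrm_X]
    refine h3.trans ((nrm_rdS hB hP hD hn i).trans ?_)
    exact pow_le_pow_right₀ hB2 (Nat.pow_le_pow_right (Nat.succ_pos D) h2')
  unfold rdP
  calc nrm (cut (fun a => wt w a < w j) (bind₁ (tm (rdS w P)) (P j)))
      ≤ nrm (P j) * ((2 * B) ^ ((D + 1) ^ j.val)) ^ D := nrm_cut.trans h1
    _ ≤ (2 * B) * ((2 * B) ^ ((D + 1) ^ j.val)) ^ D :=
        mul_le_mul_of_nonneg_right ((hn j).trans (by linarith)) (by positivity)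
    _ = (2 * B) ^ (1 + (D + 1) ^ j.val * D) := by rw [pow_add, pow_one, pow_mul]
    _ ≤ (2 * B) ^ ((D + 1) ^ (j.val + 1)) := by
        refine pow_le_pow_right₀ hB2 ?_
        have h6 : 1 ≤ (D + 1) ^ j.val := Nat.one_le_pow _ _ (Nat.succ_pos D)
        calc 1 + (D + 1) ^ j.val * D ≤ (D + 1) ^ j.val + (D + 1) ^ j.val * D := Nat.add_le_add_right h6 _
          _ = (D + 1) ^ (j.val + 1) := by ring

theorem bind_rdP_inv (hP : Tri P) (j : Fin M) : bind₁ (tm (inv (rdS w P))) (tm (rdP w P) j) = tm P j := by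
  have h0 := tri_rdS (w := w) hP
  have h5 := bind_rdS (w := w) hP j
  generalize rdS w P = S at h0 h5 ⊢
  rw [← h5, bind₁_bind₁]
  have h2 : ∀ i, bind₁ (tm (inv S)) (tm S i) = X i := fun i => bind_inv_right h0 i
  have h3 := MvPolynomial.bind₁_X_left (σ := Fin M) (R := ℝ)
  have h4 := DFunLike.congr_fun h3 (tm P j)
  rw [funext h2]
  exact h4

/-! ### conjugation with a scaling -/

/-- conjugation of a triangular map with the scaling `d` -/
noncomputable def cj (d : Fin M → ℝ) (P : Fin M → MvPolynomial (Fin M) ℝ) (j : Fin M) : MvPolynomial (Fin M) ℝ :=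
  C (d j)⁻¹ * scl d (P j)

variable {d : Fin M → ℝ}

theorem tri_cj (hP : Tri P) : Tri (cj d P) := by
  classical
  intro j i hi
  unfold cj at hi
  have h1 := MvPolynomial.vars_mul _ _ hi
  rcases Finset.mem_union.1 h1 with h | h
  · rw [MvPolynomial.vars_C] at h
    simp at h
  · exact hP j i (vars_subset_of_support (scl_support d (P j)) h)

theorem eval_cj (hd : ∀ i, d i ≠ 0) (x : Fin M → ℝ) (j : Fin M) :
    d j * (x j + eval x (cj d P j)) = eval (fun i => d i * x i) (tm P j) := by
  have h := hd j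
  rw [cj, map_mul, eval_C, eval_scl, eval_tm]
  field_simp

theorem cj_totalDegree {D : ℕ} (hD : ∀ j, (P j).totalDegree ≤ D) (j : Fin M) : (cj d P j).totalDegree ≤ D := by
  unfold cj
  refine (MvPolynomial.totalDegree_mul _ _).trans ?_
  rw [MvPolynomial.totalDegree_C, zero_add]
  exact (scl_totalDegree _ _).trans (hD j)

/-- monomials of weight at least `w j`: the conjugation with `q ^ w` does not increase the coefficients -/
theorem nrm_cj {q : ℝ} (hq : 0 < q) (hq1 : q ≤ 1) (h : ∀ j, WGe w (w j) (P j)) (j : Fin M) :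
    nrm (cj (fun i => q ^ w i) P j) ≤ nrm (P j) := by
  have h1 : (cj (fun i => q ^ w i) P j).support ⊆ (P j).support := by
    intro a ha
    rw [MvPolynomial.mem_support_iff] at ha ⊢
    intro h0
    apply ha
    rw [cj, MvPolynomial.coeff_C_mul, coeff_scl, h0, zero_mul, mul_zero]
  rw [nrm_eq_sum h1]
  unfold nrm
  refine Finset.sum_le_sum fun a ha => ?_
  rw [cj, MvPolynomial.coeff_C_mul, coeff_scl, prod_rpow hq, ← Real.rpow_neg hq.le, abs_mul, abs_mul,
    abs_of_pos (Real.rpow_pos_of_pos hq _), abs_of_pos (Real.rpow_pos_of_pos hq _)]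
  have h2 : q ^ (- w j) * q ^ wt w a ≤ 1 := by
    rw [← Real.rpow_add hq]
    exact Real.rpow_le_one hq.le hq1 (by linarith [h j a ha])
  calc q ^ (- w j) * (|(P j).coeff a| * q ^ wt w a) = |(P j).coeff a| * (q ^ (- w j) * q ^ wt w a) := by ring
    _ ≤ |(P j).coeff a| * 1 := mul_le_mul_of_nonneg_left h2 (abs_nonneg _)
    _ = |(P j).coeff a| := mul_one _

/-- REDUCTION of a frame: the point `x_j = P_j(q^w X) + q^(w_j) X_j` in the new coordinates `X'_j = X_j + R_j(X)` -/
theorem reduce {q : ℝ} (hq : 0 < q) (x : Fin M → ℝ) (hP : Tri P) (j : Fin M) :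
    eval (fun i => q ^ w i * x i) (tm P j) =
      eval (fun i => q ^ w i * (x i + eval x (cj (fun i => q ^ w i) (inv (rdS w P)) i))) (tm (rdP w P) j) := by
  have hd : ∀ i, q ^ w i ≠ 0 := fun i => (Real.rpow_pos_of_pos hq _).ne'
  have h1 : (fun i => q ^ w i * (x i + eval x (cj (fun i => q ^ w i) (inv (rdS w P)) i))) =
      fun i => eval (fun i => q ^ w i * x i) (tm (inv (rdS w P)) i) := funext fun i => eval_cj hd x i
  rw [h1, ← eval_bind]
  congr 1
  exact (bind_rdP_inv (w := w) hP j).symm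

/-- the coordinates `X` from `X'` -/
theorem reduce_back {q : ℝ} (hq : 0 < q) (x : Fin M → ℝ) (hP : Tri P) (j : Fin M) :
    x j = (x j + eval x (cj (fun i => q ^ w i) (inv (rdS w P)) j)) +
      eval (fun i => x i + eval x (cj (fun i => q ^ w i) (inv (rdS w P)) i)) (cj (fun i => q ^ w i) (rdS w P) j) := by
  have hd : ∀ i, q ^ w i ≠ 0 := fun i => (Real.rpow_pos_of_pos hq _).ne'
  set y : Fin M → ℝ := fun i => x i + eval x (cj (fun i => q ^ w i) (inv (rdS w P)) i) with hy
  have h0 : ∀ i, q ^ w i * y i = eval (fun i => q ^ w i * x i) (tm (inv (rdS w P)) i) := fun i => eval_cj hd x i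
  have h1 := eval_cj (P := rdS w P) hd y j
  have h2 : (fun i => q ^ w i * y i) = fun i => eval (fun i => q ^ w i * x i) (tm (inv (rdS w P)) i) := funext h0
  rw [h2, ← eval_bind, bind_inv_right (tri_rdS (w := w) hP), eval_X] at h1
  exact (mul_left_cancel₀ (hd j) h1).symm

end redR

end Pool.Agent.Helper77.WDG
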