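import Pool.Agent.Helper77.WDG.Ac

/-! FIRST CREATION OF WEIGHTED DEGREES, for arbitrary leaves: a label of the window `c > 0` with a reduced frame of
exponents `w j * c` and a unit `e ≤ (⌊w j⌋ + 1 - w j) * c`: the zoom in the coordinates of the frame has polynomial charts
whose coordinate `j` has degree at most `w j` (Taylor polynomials; the far past, windows `0` to `c`, bounds the degree). -/

set_option autoImplicit false

namespace Pool.Agent.Helper77.WDG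

open Finset Filter Topology Matrix Pool.Agent.Helper69.RK Pool.Agent.Helper31.EC Pool.Agent.Helper31.EC.Sp
open Pool.Agent.Helper40.EL Pool.Agent.Helper89.LX Pool.Agent.Helper3.LF Pool.Agent.Helper84.MT
open Pool.Agent.Helper89.TAY
open Pool.Agent.Helper7.GZ
open Pool.Agent.Helper36.AM (Frm Gz volO inv_deg)

noncomputable section

variable {S : Sp} {M M' : ℕ} {E : ℕ → ℕ} {ι : Type}

/-- TAYLOR POLYNOMIALS of the rows on the window of a type, the degree depends on the row -/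
theorem tay_w {Q : S.VV M} (Z : ZU S) (hc : 0 < Z.c) {D : ℕ} {Λ : ℝ} (R : Rows Q Z.l M' D Λ Z.u) (l : Leaf S Q E)
    (hl : Nul S (fun k => (Z.l k).leak (l.win Z.c k))) {La : Fin M' → ℝ} {κ : Fin M' → ℕ}
    (hcf : ∃ K : ℕ → ℝ, S.Sub K ∧ ∀ᶠ k in UF, ∀ ω, (Z.l k).T.μ ω ≠ 0 → ∀ j a,
      |(R.p k ω j).coeff a| ≤ K k * 2 ^ (La j * (S.F k).n))
    (hκ : ∀ j, La j + Z.u ≤ Z.c * (κ j + 1)) {X : Z.sp.VV M'} (hX : Rows.IsX Z R X) :
    ∃ G : ∀ k, (Z.l k).T.Ω → Fin M' → MvPolynomial (Fin l.e) ℝ, (∀ k ω j, (G k ω j).totalDegree ≤ κ j) ∧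
      (∀ᶠ k in UF, ∀ ω ω', (Z.l k).T.μ ω ≠ 0 → (Z.l k).T.μ ω' ≠ 0 → (Z.l k).T.Z ω ω' → (Z.l k).V ω ω' →
        (Z.zLa l k) ω ω' → G k ω = G k ω') ∧
      ∃ K : ℕ → ℝ, S.Sub K ∧ Typ (S := Z.sp) (fun k (ω : (Z.l k).T.Ω) => (∀ j a, |(G k ω j).coeff a| ≤ K k) ∧
        ∀ j, |X.v k ω j - MvPolynomial.eval ((Z.fr l.Y).v k ω) (G k ω j)| ≤ K k * Z.sp.dl 1 k) := by
  classical
  obtain ⟨KX, hKX, hX⟩ := hX
  have hc1 : Z.c < 1 := by linarith [Z.h1, Z.hu]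
  obtain ⟨Kc, hKc, hcf⟩ := hcf
  obtain ⟨Kb, hKb, hbd⟩ := R.bd
  obtain ⟨Kp, hKp, hpt⟩ := l.pt
  obtain ⟨KF, hKF, hF⟩ := l.bd
  obtain ⟨KL, hKL, hlp⟩ := R.lp Kp hKp
  set K0 : ℕ → ℝ := fun k => ((D : ℝ) + 1) ^ M * (Kc k * (KF k + 1) ^ D) + (Kb k + KL k) with hK0
  have hK0s : S.Sub K0 := by
    have h0 : (0 : ℝ) ≤ ((D : ℝ) + 1) ^ M := by positivity
    exact ((S.Sub_const h0).mul (hKc.mul (Sub_pow' (hKF.add (S.Sub_const zero_le_one)) _))).add (hKb.add hKL)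
  -- the value of the rows at the point of the chart
  have hlp' : Typ (S := Z.l.sp) (fun k (ω : (Z.l k).T.Ω) => ∀ j,
      |MvPolynomial.eval (l.F k ((Z.l k).p.π ω) (l.Y.v k ((Z.l k).p.π ω))) (R.p k ω j) -
        MvPolynomial.eval (Q.v k ((Z.l k).p.π ω)) (R.p k ω j)| ≤ KL k * S.dl Z.u k) := by
    refine hlp.mono ?_
    filter_upwards [hpt] with k h1 ω hω h2
    apply h2
    intro i
    rw [abs_sub_comm]
    exact h1 _ ((Z.l k).p.supp ω hω) i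
  have key : ∀ j : Fin M', ∃ G : ∀ k, (Z.l k).T.Ω → MvPolynomial (Fin l.e) ℝ, (∀ k w, (G k w).totalDegree ≤ κ j) ∧
      (∀ᶠ k in UF, ∀ w w', (Z.l k).T.μ w ≠ 0 → (Z.l k).T.μ w' ≠ 0 → (Z.l k).T.Z w w' → (Z.l k).V w w' →
        l.La k ((Z.l k).p.π w) ((Z.l k).p.π w') → (∀ i, ⌊l.Y.v k ((Z.l k).p.π w) i / S.dl Z.c k⌋ =
          ⌊l.Y.v k ((Z.l k).p.π w') i / S.dl Z.c k⌋) → G k w = G k w') ∧
      ∃ K' : ℕ → ℝ, S.Sub K' ∧ Typ (S := Z.l.sp) (fun k w => (∀ m, |(G k w).coeff m| ≤ K' k) ∧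
        ∀ y : Fin l.e → ℝ, (∀ i, |y i - l.Y.v k ((Z.l k).p.π w) i| < S.dl Z.c k) →
          |MvPolynomial.eval (l.F k ((Z.l k).p.π w) y) (R.p k w j) -
            MvPolynomial.eval (fun i => (y i - crn l Z.c k ((Z.l k).p.π w) i) / S.dl Z.c k) (G k w)| ≤
            K' k * S.dl Z.u k) := by
    intro j
    refine tay_leaf l hc hc1 Z.l hl (D := D) (κ := κ j)
      (fun k w y => MvPolynomial.eval (l.F k ((Z.l k).p.π w) y) (R.p k w j)) ?_ ?_ (hκ j) hK0s ?_ ?_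
    · filter_upwards [l.eval_mem D] with k h1 w hw
      exact ⟨_, h1 _ ((Z.l k).p.supp w hw) _ (R.deg k w j), fun y _ => rfl⟩
    · filter_upwards [R.fn, l.fn] with k h1 h2 w w' a b z v la cc
      have h3 := h1 w w' a b z v
      have h4 := h2 _ _ ((Z.l k).p.supp w a) ((Z.l k).p.supp w' b) (((Z.l k).p.hZ w w' a b).1 z) la
      rw [h3, h4]
    · refine (Typ_true (S := Z.l.sp)).mono ?_
      filter_upwards [hcf, hF, hKc.1, hKF.1, hKb.1, hKL.1] with k h1 h2 h3 h4 h5 h6 w hw _ y hy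
      have h7 := eval_le_of_coeff (R.p k w j) (R.deg k w j) (Kc k * 2 ^ (La j * (S.F k).n)) (KF k + 1)
        (mul_nonneg h3 (by positivity)) (by linarith) (h1 w hw j) (l.F k ((Z.l k).p.π w) y) (fun i => by
          have := h2 _ ((Z.l k).p.supp w hw) y (fun i => (hy i).le) i
          linarith)
      refine h7.trans ?_
      rw [hK0]
      beta_reduce
      have h8 : 0 ≤ (Kb k + KL k) * 2 ^ (La j * (S.F k).n) := mul_nonneg (by linarith) (by positivity)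
      have e1 : ((D : ℝ) + 1) ^ M * (Kc k * 2 ^ (La j * (S.F k).n) * (KF k + 1) ^ D) =
          ((D : ℝ) + 1) ^ M * (Kc k * (KF k + 1) ^ D) * 2 ^ (La j * (S.F k).n) := by ring
      rw [e1, add_mul]
      linarith
    · refine (hbd.and hlp').mono ?_
      filter_upwards [hKc.1, hKF.1, hKb.1, hKL.1] with k h3 h4 h5 h6 w hw h7
      have h8 := h7.1 j
      have h9 := h7.2 j
      have h10 : S.dl Z.u k ≤ 1 := by
        rw [← S.dl_zero k]
        exact S.dl_anti Z.hu.le k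
      have h11 : KL k * S.dl Z.u k ≤ KL k * 1 := mul_le_mul_of_nonneg_left h10 h6
      have h12 := abs_add_le (MvPolynomial.eval (l.F k ((Z.l k).p.π w) (l.Y.v k ((Z.l k).p.π w))) (R.p k w j) -
        MvPolynomial.eval (Q.v k ((Z.l k).p.π w)) (R.p k w j)) (MvPolynomial.eval (Q.v k ((Z.l k).p.π w)) (R.p k w j))
      rw [sub_add_cancel] at h12
      have h13 : 0 ≤ ((D : ℝ) + 1) ^ M * (Kc k * (KF k + 1) ^ D) := by positivity
      rw [hK0]
      beta_reduce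
      linarith
  choose G hG1 hG2 K' hK' hT using key
  have hT2 : Typ (S := Z.l.sp) (fun k w => ∀ j, ((∀ m, |(G j k w).coeff m| ≤ K' j k) ∧
        ∀ y : Fin l.e → ℝ, (∀ i, |y i - l.Y.v k ((Z.l k).p.π w) i| < S.dl Z.c k) →
          |MvPolynomial.eval (l.F k ((Z.l k).p.π w) y) (R.p k w j) -
            MvPolynomial.eval (fun i => (y i - crn l Z.c k ((Z.l k).p.π w) i) / S.dl Z.c k) (G j k w)| ≤
            K' j k * S.dl Z.u k)) := Typ_all _ hT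
  have hpos : ∀ᶠ k in UF, ∀ j, 0 ≤ K' j k := eventually_all.2 fun j => (hK' j).1
  refine ⟨fun k ω j => G j k ω, fun k ω j => hG1 j k ω, ?_, fun k => ∑ j, K' j k + (KL k + KX k), ?_, ?_⟩
  · have h1 : ∀ᶠ k in UF, ∀ j, ∀ w w', (Z.l k).T.μ w ≠ 0 → (Z.l k).T.μ w' ≠ 0 → (Z.l k).T.Z w w' → (Z.l k).V w w' →
        l.La k ((Z.l k).p.π w) ((Z.l k).p.π w') → (∀ i, ⌊l.Y.v k ((Z.l k).p.π w) i / S.dl Z.c k⌋ =
          ⌊l.Y.v k ((Z.l k).p.π w') i / S.dl Z.c k⌋) → G j k w = G j k w' := eventually_all.2 hG2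
    filter_upwards [h1] with k hk ω ω' a b z v r
    funext j
    exact hk j ω ω' a b z v r.1 (fun i => congrFun r.2 i)
  · have h1 : S.Sub (fun k => ∑ j, K' j k) := by
      have h2 : ∀ s : Finset (Fin M'), S.Sub (fun k => ∑ j ∈ s, K' j k) := by
        intro s
        induction s using Finset.induction_on with
        | empty =>
          simp only [Finset.sum_empty]
          exact S.Sub_const le_rfl
        | insert a s ha ih =>
          simp only [Finset.sum_insert ha]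
          exact (hK' a).add ih
      exact h2 _
    exact h1.add (hKL.add hKX)
  · have hT4 := (hT2.and hlp').and hX
    refine Typ.mono (S := Z.sp) hT4 ?_
    filter_upwards [hpos, hKL.1, hKX.1] with k h0 h1 h1X
    intro (w : (Z.l k).T.Ω) hw h2
    obtain ⟨⟨h2, h3⟩, h4⟩ := h2
    have hsum : ∀ j, K' j k ≤ ∑ j, K' j k := fun j =>
      Finset.single_le_sum (f := fun j => K' j k) (fun i _ => h0 i) (Finset.mem_univ j)
    have hsum0 : 0 ≤ ∑ j, K' j k := Finset.sum_nonneg fun j _ => h0 j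
    refine ⟨fun j a => ((h2 j).1 a).trans (by linarith [hsum j]), fun j => ?_⟩
    rw [Z.sp_dl1]
    have h5 := (h2 j).2 (l.Y.v k ((Z.l k).p.π w)) (fun i => by
      rw [sub_self, abs_zero]
      exact S.dl_pos _ _)
    have h6 : (fun i => (l.Y.v k ((Z.l k).p.π w) i - crn l Z.c k ((Z.l k).p.π w) i) / S.dl Z.c k) =
        (Z.fr l.Y).v k w := by
      funext i
      have hd := (S.dl_pos Z.c k).ne'
      rw [Z.fr_v]
      unfold crn
      field_simp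
    rw [h6] at h5
    have h7 := h3 j
    have h8 := abs_add_le (Rows.val Z R k w j - MvPolynomial.eval (l.F k ((Z.l k).p.π w) (l.Y.v k ((Z.l k).p.π w)))
      (R.p k w j)) (MvPolynomial.eval (l.F k ((Z.l k).p.π w) (l.Y.v k ((Z.l k).p.π w))) (R.p k w j) -
        MvPolynomial.eval ((Z.fr l.Y).v k w) (G j k w))
    rw [sub_add_sub_cancel] at h8
    have h9 : |Rows.val Z R k w j - MvPolynomial.eval (l.F k ((Z.l k).p.π w) (l.Y.v k ((Z.l k).p.π w)))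
      (R.p k w j)| ≤ KL k * S.dl Z.u k := by
      rw [abs_sub_comm]
      exact h7
    have h10 := mul_le_mul_of_nonneg_right (hsum j) (S.dl_pos Z.u k).le
    have h11 := h4 j
    have h12 := abs_add_le (X.v k w j - Rows.val Z R k w j) (Rows.val Z R k w j - MvPolynomial.eval ((Z.fr l.Y).v k w) (G j k w))
    rw [sub_add_sub_cancel] at h12
    rw [add_mul, add_mul]
    linarith

/-- the coefficients of the rows of a frame, separately for every row -/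
theorem frow_cf' {Q : S.VV M} {l : Lab S} {La : Fin M → ℝ} (f : Frm Q l La) {κ : ℕ}
    (hκ : ∀ k ω j, (f.P k ω j).totalDegree ≤ κ) :
    ∃ K : ℕ → ℝ, S.Sub K ∧ ∀ᶠ k in UF, ∀ ω : (l k).T.Ω, (l k).T.μ ω ≠ 0 → ∀ j a,
      |(frow f k ω j).coeff a| ≤ K k * 2 ^ (La j * (S.F k).n) := by
  obtain ⟨Kc, hKc, hc⟩ := f.bd
  obtain ⟨B, hB1, hB⟩ := Pool.Agent.Helper63.FRT.exists_coef_bd M ((κ + 1) ^ M)
  refine ⟨fun k => B * Bq M κ (Kc k) M, (S.Sub_const (by linarith)).mul (Bq_Sub hKc M κ M), ?_⟩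
  filter_upwards [hc, hKc.1] with k c1 c2 ω hω j a
  have h1 := hB (Pool.Agent.Helper36.AM.inv (f.P k ω) j) (inv_deg (fun j => hκ k ω j) j) (Bq M κ (Kc k) M) (fun y hy =>
    inv_cube (f.tri k ω) (fun j => hκ k ω j) c2 (fun j a => c1 ω hω j a) y (fun i => by
      rw [abs_le]
      have := hy i
      constructor <;> linarith) M j j.2) a
  show |MvPolynomial.coeff a (MvPolynomial.C (S.dl (La j) k)⁻¹ * Pool.Agent.Helper36.AM.inv (f.P k ω) j)| ≤ _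
  rw [MvPolynomial.coeff_C_mul, abs_mul, abs_of_pos (inv_pos.2 (S.dl_pos _ _)), dl_inv_eq, mul_comm]
  exact mul_le_mul_of_nonneg_right h1 (by positivity)

/-- data of the first zoom with weighted degrees -/
structure FD (g : ℕ) (s : MSys S M E ι) (l : Lab S) (w : Fin M → ℝ) (c e : ℝ) where
  f : Frm s.Q l (fun j => w j * c)
  hc : 0 < c
  he : 0 < e
  h1 : c + e ≤ 1
  hwe : ∀ j, w j * c + e ≤ 1
  dm : s.DMc c l
  hw : ∀ j, 1 ≤ w j
  hwg : ∀ j, w j ≤ g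
  hg : 1 ≤ g
  hdim : ∀ i, (s.lf i).e ≤ g
  hfl : ∀ j, e ≤ ((⌊w j⌋₊ : ℝ) + 1 - w j) * c

namespace FD

variable {g : ℕ} {s : MSys S M E ι} {l : Lab S} {w : Fin M → ℝ} {c e : ℝ} (F : FD g s l w c e)

include F in
theorem h0 (j : Fin M) : (0 : ℝ) ≤ w j := zero_le_one.trans (F.hw j)

theorem degP (k : ℕ) (ω : (l.sp.F k).Ω) (j : Fin M) : (F.f.P k ω j).totalDegree ≤ g := by
  have h1 : WLe w (w j) (F.f.P k ω j) := by
    intro a ha
    by_cases h : a = 0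
    · rw [h, wt_zero]
      exact F.h0 j
    · have h2 := F.f.red k ω j a ha h
      have h3 : wt w a * c < w j * c := by
        rw [← wt_smul]
        exact h2
      exact (lt_of_mul_lt_mul_right h3 F.hc.le).le
  have h2 := (h1.totalDegree F.hw (F.h0 j)).trans (F.hwg j)
  exact_mod_cast h2

/-- the data of the zoom -/
def fz : FrZ s l (fun j => w j * c) where
  f := F.f
  c := c
  e := e
  hc := F.hc
  he := F.he
  h1 := F.h1
  dm := F.dm
  h0 := fun j => mul_nonneg (F.h0 j) F.hc.le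
  hLe := F.hwe
  κ₀ := g
  hκ₀ := F.degP
  Λ := 1 - e
  hΛ := fun j => by
    have := F.hwe j
    linarith
  κ := ⌈1 / c⌉₊ + g
  hκ1 := F.hg.trans (Nat.le_add_left _ _)
  hdim := fun i => (F.hdim i).trans (Nat.le_add_left _ _)
  hκ := by
    have h1 : 1 / c ≤ ⌈1 / c⌉₊ := Nat.le_ceil _
    have h2 := F.hc
    rw [div_le_iff₀ h2] at h1
    push_cast
    have h3 : (0 : ℝ) ≤ g := Nat.cast_nonneg g
    nlinarith

theorem tay (i : ι) : ∃ G : ∀ k, (l k).T.Ω → Fin M → MvPolynomial (Fin (s.lf i).e) ℝ,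
    (∀ k ω j, (G k ω j).totalDegree ≤ ⌊w j⌋₊) ∧
      (∀ᶠ k in UF, ∀ ω ω', (l k).T.μ ω ≠ 0 → (l k).T.μ ω' ≠ 0 → (l k).T.Z ω ω' → (l k).V ω ω' →
        (F.fz.rz.Z.zLa (s.lf i) k) ω ω' → G k ω = G k ω') ∧
      ∃ K : ℕ → ℝ, S.Sub K ∧ Typ (S := F.fz.rz.Z.sp) (fun k (ω : (l k).T.Ω) => (∀ j a, |(G k ω j).coeff a| ≤ K k) ∧
        ∀ j, |F.fz.rz.X.v k ω j - MvPolynomial.eval ((F.fz.rz.Z.fr (s.lf i).Y).v k ω) (G k ω j)| ≤
          K k * F.fz.rz.Z.sp.dl 1 k) :=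
  tay_w F.fz.rz.Z F.hc F.fz.rz.R (s.lf i) (F.fz.rz.dm (some i)) (La := fun j => w j * c) (κ := fun j => ⌊w j⌋₊)
    (frow_cf' F.f F.degP) (fun j => by
      show w j * c + e ≤ c * ((⌊w j⌋₊ : ℝ) + 1)
      have h1 := F.hfl j
      nlinarith) F.fz.rz.hX

/-- THE APPROXIMATE CHARTS: Taylor polynomials of degree at most `w j` -/
def ac : AC F.fz.rz g where
  hκ1 := F.hg
  he := F.hdim
  G := fun i => (F.tay i).choose
  deg := fun i k ω j => by
    have h1 := (F.tay i).choose_spec.1 k ω j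
    have h2 : ((⌊w j⌋₊ : ℕ) : ℝ) ≤ (g : ℝ) := (Nat.floor_le (F.h0 j)).trans (F.hwg j)
    exact h1.trans (by exact_mod_cast h2)
  fn := fun i => (F.tay i).choose_spec.2.1
  bound := fun i => (F.tay i).choose_spec.2.2

theorem ac_deg (i : ι) (k : ℕ) (ω : (l k).T.Ω) (j : Fin M) : ((F.ac.G i k ω j).totalDegree : ℝ) ≤ w j := by
  have h1 := (F.tay i).choose_spec.1 k ω j
  calc ((F.ac.G i k ω j).totalDegree : ℝ) ≤ (⌊w j⌋₊ : ℝ) := by exact_mod_cast h1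
    _ ≤ w j := Nat.floor_le (F.h0 j)

/-- THE FIRST ZOOM WITH WEIGHTED DEGREES -/
theorem exists_zoom [Finite ι] : ∃ t : MSys (l.ovr e F.he) M (lin g) ι, Gz s l c e F.he F.f.X t ∧ WDeg t w ∧
    t.Q = F.fz.XX ∧ (∀ i, (t.lf i).e = (s.lf i).e) ∧ (s.IsKap c l → t.Con 0) ∧
    (∀ b, 0 ≤ b → ∀ y : Lab (l.ovr e F.he), t.DMc b y → s.DMc (c + e * b) (l.comp e F.he y)) ∧
    (∀ b, 0 ≤ b → volO s (c + e * b) ≤ M - (∑ j, w j) * c - e * (M - volO t b)) ∧
    ((M : ℝ) - (∑ j, w j) * c ≤ volO s c → volO t 0 = M) := by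
  have h7 : ∀ b, 0 ≤ b → volO s (c + e * b) ≤ M - (∑ j, w j) * c - e * (M - volO F.ac.sys b) := by
    intro b hb
    have h1 := F.fz.volO_le hb
    have h2 : volO F.ac.sys b = volO F.fz.sys b := by
      unfold volO
      congr 1
      funext D
      exact (F.ac.eqv hb).vol D
    rw [h2, Finset.sum_mul]
    exact h1
  refine ⟨F.ac.sys, F.ac.gz (z := F.fz.rz) F.f.X fun _ _ _ => rfl, F.ac.wdeg F.h0 F.ac_deg, rfl, fun i => rfl,
    fun h => (F.ac.eqv le_rfl).Con (F.fz.con h), fun b hb v hv => F.fz.DMc_cl hb ((F.ac.eqv hb).DMc hv), h7, fun h => ?_⟩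
  have h8 := h7 0 le_rfl
  rw [mul_zero, add_zero] at h8
  apply le_antisymm (volO_le_M F.ac.sys 0)
  have h9 : 0 ≤ -(e * (M - volO F.ac.sys 0)) := by linarith
  have h10 := F.he
  nlinarith

end FD

/-- THE FIRST ZOOM WITH WEIGHTED DEGREES, all hypotheses -/
theorem wd1 [Finite ι] {g : ℕ} {s : MSys S M E ι} {l : Lab S} {w : Fin M → ℝ} {c e : ℝ}
    (f : Frm s.Q l (fun j => w j * c)) (hc : 0 < c) (he : 0 < e) (h1 : c + e ≤ 1) (hwe : ∀ j, w j * c + e ≤ 1)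
    (dm : s.DMc c l) (hw : ∀ j, 1 ≤ w j) (hwg : ∀ j, w j ≤ g) (hg : 1 ≤ g) (hdim : ∀ i, (s.lf i).e ≤ g)
    (hfl : ∀ j, e ≤ ((⌊w j⌋₊ : ℝ) + 1 - w j) * c) :
    ∃ t : MSys (l.ovr e he) M (lin g) ι, Gz s l c e he f.X t ∧ WDeg t w ∧
    t.Q = f.X.chg l.V e he ∧ (∀ i, (t.lf i).e = (s.lf i).e) ∧ (s.IsKap c l → t.Con 0) ∧
    (∀ b, 0 ≤ b → ∀ y : Lab (l.ovr e he), t.DMc b y → s.DMc (c + e * b) (l.comp e he y)) ∧
    (∀ b, 0 ≤ b → volO s (c + e * b) ≤ M - (∑ j, w j) * c - e * (M - volO t b)) ∧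
    ((M : ℝ) - (∑ j, w j) * c ≤ volO s c → volO t 0 = M) :=
  (FD.mk f hc he h1 hwe dm hw hwg hg hdim hfl).exists_zoom

end

end Pool.Agent.Helper77.WDG
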